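import Pool.Agent.TH358.MD.Defs

set_option autoImplicit false

/-!
# Motivic iterated integrals in the motivic Lie coalgebra of a field

The definitions of `Pool/Agent/TH358/MD/Defs.lean` for fields without a condition on
`Ext^1(ℚ(0), ℚ(n))`; some standard relations between iterated integrals, which follow from that
condition there, are part of the data here.
-/

namespace Pool.Agent.V8H63.TD

open scoped TensorProduct
open Pool.Agent.TH358.MC Pool.Agent.TH358.MD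

/-- `a_0, a_n, ..., a_1, a_{n+1}, a_{n+2}, ...` -/
def rev {F : Type} (n : ℕ) (a : ℕ → F) : ℕ → F := fun t =>
  if 1 ≤ t ∧ t ≤ n then a (n + 1 - t) else a t

/-- `0, 1/x, 0, ..., 0, 1, ...` with `1` at the places `≥ n + 1` -/
def liSeq {F : Type} [Field F] (n : ℕ) (x : F) : ℕ → F := fun t =>
  if t = 0 then 0 else if t = 1 then x⁻¹ else if t ≤ n then 0 else 1

variable (C : Type) [AddCommGroup C] [Module ℚ C]

/-- The motivic Lie coalgebra of a field `F` with Goncharov's motivic iterated integrals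
`I n a = I(a_0; a_1, ..., a_n; a_{n+1}) ∈ C_n`, `n ≥ 1` (classes modulo products):
`C_1 = F^* ⊗ ℚ`; `I(a; b; c)` is the class of `(b - c) / (b - a)` (a factor which is `0` is left
out) and `δ I(a_0; a_1, ..., a_n; a_{n+1})` is the sum, over all `1 ≤ m < n` and `0 ≤ i ≤ n - m`, of
`I(a_0; a_1, ..., a_i, a_{i+m+1}, ..., a_n; a_{n+1}) ∧ I(a_i; a_{i+1}, ..., a_{i+m}; a_{i+m+1})`.
Moreover:
* `I(a; a_1, ..., a_n; a) = 0`, and `I(a; 0, ..., 0; b) = 0` in weight `n ≥ 2`;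
* `I(q a_0; q a_1, ..., q a_n; q a_{n+1}) = I(a_0; a_1, ..., a_n; a_{n+1})` for `n ≥ 2`, `q ≠ 0`;
* `I(a_0; a_n, ..., a_1; a_{n+1}) = (-1)^(n-1) I(a_0; a_1, ..., a_n; a_{n+1})`
  (shuffle relations);
* `Li_n(1/x) = (-1)^(n-1) Li_n(x)` and `Li_n(x²) = 2^(n-1) (Li_n(x) + Li_n(-x))` for `n ≥ 2`, where
  `Li_n(x) = - I(0; 1/x, 0, ..., 0; 1)` (inversion and distribution relations). -/
structure MotivicIt (F : Type) [Field F] extends LieCoalg C where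
  /-- `F^* ⊗ ℚ → C_1` -/
  φ : (ℚ ⊗[ℤ] Additive Fˣ) →ₗ[ℚ] C
  φ_inj : Function.Injective φ
  φ_range : LinearMap.range φ = W 1
  /-- `I(a_0; a_1, ..., a_n; a_{n+1})` -/
  I : ℕ → (ℕ → F) → C
  I_congr : ∀ (n : ℕ) (a b : ℕ → F), (∀ t, t ≤ n + 1 → a t = b t) → I n a = I n b
  I_mem : ∀ (n : ℕ) (a : ℕ → F), 1 ≤ n → I n a ∈ W n
  I_one : ∀ a : ℕ → F, I 1 a = φ (cls (a 1 - a 2)) - φ (cls (a 1 - a 0))
  d_I : ∀ (n : ℕ) (a : ℕ → F), 1 ≤ n → d (ExteriorAlgebra.ι ℚ (I n a)) =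
    ∑ m ∈ Finset.Ico 1 n, ∑ i ∈ Finset.range (n - m + 1),
      ExteriorAlgebra.ι ℚ (I (n - m) (cut i m a)) * ExteriorAlgebra.ι ℚ (I m (shift i a))
  I_loop : ∀ (n : ℕ) (a : ℕ → F), 1 ≤ n → a 0 = a (n + 1) → I n a = 0
  I_zero : ∀ (n : ℕ) (a : ℕ → F), 2 ≤ n → (∀ t, 1 ≤ t → t ≤ n → a t = 0) → I n a = 0
  I_scale : ∀ (n : ℕ) (a : ℕ → F) (q : F), 2 ≤ n → q ≠ 0 → I n (fun t => q * a t) = I n a
  I_rev : ∀ (n : ℕ) (a : ℕ → F), 1 ≤ n → I n (rev n a) = ((-1 : ℚ) ^ (n - 1)) • I n a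
  Li_inv : ∀ (n : ℕ) (x : F), 2 ≤ n → x ≠ 0 →
    I n (liSeq n x⁻¹) = ((-1 : ℚ) ^ (n - 1)) • I n (liSeq n x)
  Li_two : ∀ (n : ℕ) (x : F), 2 ≤ n → x ≠ 0 →
    I n (liSeq n (x * x)) = ((2 : ℚ) ^ (n - 1)) • (I n (liSeq n x) + I n (liSeq n (-x)))

/-- The motivic Lie coalgebra of `ℚ`, with motivic iterated integrals: the kernel of `δ` on `C_n`,
`n ≥ 2`, that is `Ext^1(ℚ(0), ℚ(n)) = K_{2n-1}(ℚ) ⊗ ℚ`, is `0` for even `n` and spanned by
`Li_n(1)` (the motivic `ζ(n)`) for odd `n` (theorems of Borel, Beilinson and Deligne). -/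
structure MotivicItRat extends MotivicIt C ℚ where
  ext_even : ∀ (n : ℕ) (a : C), 2 ≤ n → Even n → a ∈ W n → d (ExteriorAlgebra.ι ℚ a) = 0 → a = 0
  ext_odd : ∀ (n : ℕ) (a : C), 2 ≤ n → Odd n → a ∈ W n → d (ExteriorAlgebra.ι ℚ a) = 0 →
    ∃ q : ℚ, a = q • I n (liSeq n 1)

variable {C} {F : Type} [Field F]

/-- the span of the classical polylogarithms `Li_n(x)`, `x ∈ F^*` -/
def Lis (M : MotivicIt C F) (n : ℕ) : Submodule ℚ C :=
  Submodule.span ℚ {c | ∃ x : F, x ≠ 0 ∧ c = M.I n (liSeq n x)}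

/-- The span of the motivic multiple polylogarithms of depth at most `k`, that is, of all
`I(0; a_1, ..., a_n; 1)` with `n ≥ 1`, `a_1 ≠ 0` and at most `k` nonzero `a_i`. For
`(a_1, ..., a_n) = (1/(x_1 ... x_r), 0, ..., 0, 1/(x_2 ... x_r), 0, ..., 0, ..., 1/x_r, 0, ..., 0)`
with blocks of lengths `n_1, ..., n_r` this is `(-1)^r Li_{n_1, ..., n_r}(x_1, ..., x_r)`. -/
def mpl (M : MotivicIt C F) (k : ℕ) : Submodule ℚ C :=
  Submodule.span ℚ {c | ∃ (n : ℕ) (a : ℕ → F), 1 ≤ n ∧ a 0 = 0 ∧ a 1 ≠ 0 ∧ a (n + 1) = 1 ∧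
    dep n a ≤ k ∧ c = M.I n a}

/-- The span of those elements of `mpl M k` for which all zeros among `a_1, ..., a_n` come directly
after `a_1`, that is (up to sign), of the `Li_{m, 1, ..., 1}(x_1, ..., x_r)`, `m ≥ 1`, `r ≤ k`. -/
def mplO (M : MotivicIt C F) (k : ℕ) : Submodule ℚ C :=
  Submodule.span ℚ {c | ∃ (n : ℕ) (a : ℕ → F), 1 ≤ n ∧ a 0 = 0 ∧ a 1 ≠ 0 ∧ a (n + 1) = 1 ∧
    dep n a ≤ k ∧ (∃ s, (∀ t, 2 ≤ t → t ≤ s → a t = 0) ∧ ∀ t, s < t → t ≤ n → a t ≠ 0) ∧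
    c = M.I n a}

/-- The depth conjecture for the part of depth `r` and weight `n` where all of `C_n` has depth at
most `r`: every element of `C_n` is the sum of an element of depth at most `r - 1` and of a linear
combination of multiple polylogarithms of depth at most `r` and weight `n`, and those of the form
`Li_{m,1,...,1}` suffice. -/
def TopPart (M : MotivicIt C F) (r n : ℕ) : Prop :=
  M.W n ≤ M.D r ∧
    M.D r ⊓ M.W n = (mpl M r ⊓ M.W n) ⊔ (M.D (r - 1) ⊓ M.W n) ∧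
    M.D r ⊓ M.W n = (mplO M r ⊓ M.W n) ⊔ (M.D (r - 1) ⊓ M.W n)

end Pool.Agent.V8H63.TD
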