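import Pool.Agent.V8H63.TD.Poly

set_option autoImplicit false

/-!
# Symbols of multiple polylogarithms
-/

namespace Pool.Agent.V8H63.TD

open scoped TensorProduct
open Pool.Agent.TH358.MC
open Pool.Agent.TH358.MD hiding mpl mplO I_loop I_mem_D mpl_le pr_d_I rn_G sym sym_zero sym_succ
  sym_last rn_sym I_dep_zero d_J d_K Lin Lin_mem Lin_one Lin_succ eq_of_d eq_J eq_K Lin_frob Lin_frob'
  SM SM_congr sym_SM fs fs_zero_zero fs_zero_pos fs_succ fs_succ_zero fs_cons fs_congr sym_fs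
  sym_one_eq key Scl Tk_le mpl_mono mplO_mono mplO_le dep_le_one mpl_one mplO_one D_le_mplO D_eq
  D_eqO D_eq_ratFunc

section int

variable {F : Type} [Field F] {C : Type} [AddCommGroup C] [Module ℚ C] (M : MotivicIt C F)

/-- the functions which come from multiple polylogarithms -/
def SM (d : ℕ) : Submodule ℚ (List (C →ₗ[ℚ] ℚ) → ℚ) where
  carrier := {Φ | ∃ m ∈ mplO M (d + 2), ∀ l, NL M.toLieCoalg (d + 2) l →
    rn M.toLieCoalg l m = dyn l Φ}
  zero_mem' := ⟨0, Submodule.zero_mem _, fun l _ => by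
    have h := dyn_smul l 0 (0 : List (C →ₗ[ℚ] ℚ) → ℚ)
    rw [zero_smul, zero_mul] at h
    rw [map_zero]
    exact h.symm⟩
  add_mem' := by
    rintro Φ Ψ ⟨m, h1, h2⟩ ⟨m', h3, h4⟩
    exact ⟨m + m', Submodule.add_mem _ h1 h3, fun l hl => by
      rw [map_add, h2 l hl, h4 l hl, dyn_add]⟩
  smul_mem' := by
    rintro r Φ ⟨m, h1, h2⟩
    exact ⟨r • m, Submodule.smul_mem _ _ h1, fun l hl => by
      rw [map_smul, h2 l hl, dyn_smul, smul_eq_mul]⟩

theorem SM_congr (d : ℕ) (Φ Ψ : List (C →ₗ[ℚ] ℚ) → ℚ) (h : Φ ∈ SM M d)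
    (he : ∀ l, NL M.toLieCoalg (d + 2) l → Φ l = Ψ l) : Ψ ∈ SM M d := by
  obtain ⟨m, h1, h2⟩ := h
  exact ⟨m, h1, fun l hl => by
    rw [h2 l hl]
    exact dyn_congr M.toLieCoalg (d + 2) l Φ Ψ hl he⟩

theorem sym_SM (d s : ℕ) (x : F) (hx : x ≠ 0) (y : ℕ → F) (hy : ∀ j, y j ≠ 0)
    (hy1 : y (d + 2) = 1) : sym M x 1 (d + 1) s y ∈ SM M d := by
  refine ⟨M.I (s + (d + 1 + 1)) (gseq 1 s x y), ?_, fun l hl =>
    rn_sym M x hx (d + 1) 1 s le_rfl y hy l hl⟩
  refine Submodule.subset_span ⟨s + (d + 1 + 1), gseq 1 s x y, by omega, gseq_zero _ _ _ _, ?_, ?_,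
    ?_, ⟨s + 1, fun t h1 h2 => gseq_mid _ _ _ _ _ (by omega) (by omega), fun t h1 _ => ?_⟩, rfl⟩
  · rw [gseq_x _ _ _ _ _ le_rfl le_rfl]
    exact hx
  · rw [gseq_y _ _ _ _ _ (by omega), ← hy1]
    congr 1
    omega
  · have h1 : s + (d + 1 + 1) = s + d + 2 := by omega
    rw [h1]
    exact dep_gseq 1 s d x y le_rfl
  · rw [gseq_y _ _ _ _ _ (by omega)]
    exact hy _

/-- the symbol in terms of classical polylogarithms -/
noncomputable def fs (z : ℕ → F) : ℕ → ℕ → (List (C →ₗ[ℚ] ℚ) → ℚ)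
  | 0, r => if r = 0 then (fun l => ev l []) else 0
  | (j + 1), r => ∑ r' ∈ Finset.range r,
      ((-1 : ℚ) ^ (r - r' + 1)) • consf (Lin M (r - r' + 1) (z (j + 1))) (fs z j r')

theorem fs_zero_zero (z : ℕ → F) : fs M z 0 0 = fun l => ev l [] := by
  rw [fs, if_pos rfl]

theorem fs_zero_pos (z : ℕ → F) (r : ℕ) (hr : r ≠ 0) : fs M z 0 r = 0 := by
  rw [fs, if_neg hr]

theorem fs_succ (z : ℕ → F) (j r : ℕ) : fs M z (j + 1) r = ∑ r' ∈ Finset.range r,
    ((-1 : ℚ) ^ (r - r' + 1)) • consf (Lin M (r - r' + 1) (z (j + 1))) (fs M z j r') := by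
  rw [fs]

theorem fs_succ_zero (z : ℕ → F) (j : ℕ) : fs M z (j + 1) 0 = 0 := by
  rw [fs_succ, Finset.range_zero, Finset.sum_empty]

theorem fs_cons (z : ℕ → F) (j r : ℕ) (f : C →ₗ[ℚ] ℚ) (l : List (C →ₗ[ℚ] ℚ)) :
    fs M z (j + 1) r (f :: l) = ∑ r' ∈ Finset.range r,
      ((-1 : ℚ) ^ (r - r' + 1)) * (f (Lin M (r - r' + 1) (z (j + 1))) * fs M z j r' l) := by
  rw [fs_succ, Finset.sum_apply]
  rfl

theorem fs_congr (z z' : ℕ → F) (j : ℕ) : ∀ r, (∀ i, 1 ≤ i → i ≤ j → z i = z' i) →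
    fs M z j r = fs M z' j r := by
  induction j with
  | zero =>
    intro r _
    by_cases hr : r = 0
    · subst hr
      rw [fs_zero_zero, fs_zero_zero]
    · rw [fs_zero_pos M z r hr, fs_zero_pos M z' r hr]
  | succ j ih =>
    intro r h
    rw [fs_succ, fs_succ]
    refine Finset.sum_congr rfl fun r' _ => ?_
    rw [ih r' (fun i h1 h2 => h i h1 (by omega)), h (j + 1) (by omega) le_rfl]

theorem sym_fs (x : F) (y z : ℕ → F) (hy : ∀ j, y j ≠ 0) (d : ℕ) :
    ∀ (r : ℕ) (l : List (C →ₗ[ℚ] ℚ)), 1 ≤ r → l.length = d + 1 →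
    (∀ j, 1 ≤ j → j ≤ d + 1 → y (j + 1) / y j = z j) →
    sym M x 0 d r y l = fs M z (d + 1) r l := by
  induction d with
  | zero =>
    intro r l hr hl hz
    obtain ⟨f, rfl⟩ := List.length_eq_one_iff.1 hl
    rw [sym_zero, fs_cons, Finset.sum_eq_single 0]
    · rw [fs_zero_zero, eq_K M r hr x y (hy 1) (hy 2), hz 1 le_rfl le_rfl, Nat.sub_zero, map_smul,
        smul_eq_mul]
      change _ = (-1 : ℚ) ^ (r + 1) * (f (Lin M (r + 1) (z (0 + 1))) * 1)
      rw [mul_one]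
    · intro r' _ hr'
      rw [fs_zero_pos M z r' hr']
      change _ * (_ * (0 : ℚ)) = 0
      rw [mul_zero, mul_zero]
    · intro h
      exact absurd (Finset.mem_range.2 (by omega)) h
  | succ d ih =>
    intro r l hr hl hz
    cases l with
    | nil => exact absurd hl (by simp)
    | cons f l =>
      have hl' : l.length = d + 1 := by
        rw [List.length_cons] at hl
        omega
      have h5 : ∀ g : ℕ → ℚ, ∑ r' ∈ Finset.range r, g r' = g 0 + ∑ r' ∈ Finset.Ico 1 r, g r' :=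
        fun g => by rw [Finset.range_eq_Ico, Finset.sum_eq_sum_Ico_succ_bot (by omega)]
      rw [sym_succ, fs_cons, h5, fs_succ_zero]
      have h0 : (0 : List (C →ₗ[ℚ] ℚ) → ℚ) l = 0 := rfl
      rw [h0, mul_zero, mul_zero, zero_add]
      refine Finset.sum_congr rfl fun r' hr' => ?_
      rw [Finset.mem_Ico] at hr'
      rw [ih r' l hr'.1 hl' (fun j h1 h2 => hz j h1 (by omega)),
        eq_K M (r - r') (by omega) x (fun j => y (j + (d + 1))) (hy _) (hy _)]
      have h1 : y (2 + (d + 1)) / y (1 + (d + 1)) = z (d + 1 + 1) := by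
        rw [← hz (d + 1 + 1) (by omega) le_rfl]
        congr 2
        · omega
        · omega
      rw [h1, map_smul, smul_eq_mul, mul_assoc]

theorem sym_one_eq (x : F) (hx : x ≠ 0) (y z : ℕ → F) (hy : ∀ j, y j ≠ 0) (d s : ℕ)
    (hz : ∀ j, 1 ≤ j → j ≤ d + 1 → y (j + 1) / y j = z j) (l : List (C →ₗ[ℚ] ℚ))
    (hl : l.length = d + 2) : sym M x 1 (d + 1) s y l = ∑ r ∈ Finset.Ico 1 s,
      (- consf (Lin M (s - r + 1) (y (d + 2) / x)) (fs M z (d + 1) r)) l := by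
  cases l with
  | nil => exact absurd hl (by simp)
  | cons f l =>
    have hl' : l.length = d + 1 := by
      rw [List.length_cons] at hl
      omega
    rw [sym_succ]
    refine Finset.sum_congr rfl fun r hr => ?_
    rw [Finset.mem_Ico] at hr
    rw [sym_fs M x y z hy d r l hr.1 hl' hz, eq_J M (s - r) (by omega) x hx
      (fun j => y (j + (d + 1))) (hy _), Pi.neg_apply, consf_cons]
    have h1 : y (1 + (d + 1)) = y (d + 2) := by
      congr 1
      omega
    rw [h1, map_neg, neg_mul]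

/-- the classical polylogarithms -/
def Scl : Set C := {a | ∃ (n : ℕ) (x : F), 1 ≤ n ∧ x ≠ 0 ∧ a = Lin M n x}

theorem mpl_mono (j k : ℕ) (h : j ≤ k) : mpl M j ≤ mpl M k := by
  apply Submodule.span_mono
  rintro c ⟨n, a, h1, h2, h3, h4, h5, rfl⟩
  exact ⟨n, a, h1, h2, h3, h4, h5.trans h, rfl⟩

theorem mplO_mono (j k : ℕ) (h : j ≤ k) : mplO M j ≤ mplO M k := by
  apply Submodule.span_mono
  rintro c ⟨n, a, h1, h2, h3, h4, h5, h6, rfl⟩
  exact ⟨n, a, h1, h2, h3, h4, h5.trans h, h6, rfl⟩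

theorem mplO_le (k : ℕ) : mplO M k ≤ mpl M k := by
  apply Submodule.span_mono
  rintro c ⟨n, a, h1, h2, h3, h4, h5, -, rfl⟩
  exact ⟨n, a, h1, h2, h3, h4, h5, rfl⟩

theorem dep_le_one (n : ℕ) (a : ℕ → F) (h : ∀ t, 2 ≤ t → t ≤ n → a t = 0) : dep n a ≤ 1 := by
  classical
  unfold dep
  rcases Nat.eq_zero_or_pos n with hn | hn
  · subst hn
    simp
  · rw [Finset.sum_eq_sum_Ico_succ_bot (by omega), Finset.sum_eq_zero]
    · split_ifs <;> simp
    · intro t ht
      rw [Finset.mem_Ico] at ht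
      rw [if_pos (h t (by omega) (by omega))]

theorem mpl_one : mpl M 1 = Submodule.span ℚ (Scl M) := by
  apply le_antisymm
  · rw [mpl, Submodule.span_le]
    rintro _ ⟨n, a, h1, h2, h3, h4, h5, rfl⟩
    have h6 : M.I n a = - Lin M n (a 1)⁻¹ := by
      rw [Lin, neg_neg, inv_inv]
      apply M.I_congr
      intro t ht
      rcases Nat.eq_zero_or_pos t with h0 | h0
      · rw [h0, h2, gseq_zero]
      · rcases Nat.lt_or_ge t 2 with h7 | h7
        · have h8 : t = 1 := by omega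
          rw [h8, gseq_x _ _ _ _ _ le_rfl le_rfl]
        · rcases Nat.lt_or_ge n t with h8 | h8
          · have h9 : t = n + 1 := by omega
            rw [h9, h4, gseq_y _ _ _ _ _ (by omega)]
          · rw [gseq_mid _ _ _ _ _ (by omega) (by omega)]
            by_contra h9
            have := dep_two n a 1 t le_rfl (by omega) h8 h3 h9
            omega
    change M.I n a ∈ Submodule.span ℚ (Scl M)
    rw [h6]
    exact Submodule.neg_mem _ (Submodule.subset_span ⟨n, (a 1)⁻¹, h1, inv_ne_zero h3, rfl⟩)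
  · rw [Submodule.span_le]
    rintro _ ⟨n, x, hn, hx, rfl⟩
    refine Submodule.neg_mem _ (Submodule.subset_span ⟨n, gseq 1 (n - 1) x⁻¹ (fun _ => 1), hn,
      gseq_zero _ _ _ _, ?_, ?_, ?_, rfl⟩)
    · rw [gseq_x _ _ _ _ _ le_rfl le_rfl]
      exact inv_ne_zero hx
    · rw [gseq_y _ _ _ _ _ (by omega)]
    · apply dep_le_one
      intro t h1 h2
      exact gseq_mid _ _ _ _ _ (by omega) (by omega)

theorem mplO_one : mplO M 1 = Submodule.span ℚ (Scl M) := by
  apply le_antisymm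
  · rw [← mpl_one]
    exact mplO_le M 1
  · rw [Submodule.span_le]
    rintro _ ⟨n, x, hn, hx, rfl⟩
    refine Submodule.neg_mem _ (Submodule.subset_span ⟨n, gseq 1 (n - 1) x⁻¹ (fun _ => 1), hn,
      gseq_zero _ _ _ _, ?_, ?_, ?_, ⟨n, fun t h1 h2 => gseq_mid _ _ _ _ _ (by omega) (by omega),
        fun t h1 h2 => absurd h1 (by omega)⟩, rfl⟩)
    · rw [gseq_x _ _ _ _ _ le_rfl le_rfl]
      exact inv_ne_zero hx
    · rw [gseq_y _ _ _ _ _ (by omega)]
    · apply dep_le_one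
      intro t h1 h2
      exact gseq_mid _ _ _ _ _ (by omega) (by omega)


end int

end Pool.Agent.V8H63.TD
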