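import Pool.Agent.V8H63.TD.Defs
import Pool.Agent.TH358.MD.Final

set_option autoImplicit false

/-!
# The depth of motivic iterated integrals
-/

namespace Pool.Agent.V8H63.TD

open scoped TensorProduct
open Pool.Agent.TH358.MC
open Pool.Agent.TH358.MD (mem_D_succ D_mono W_one_le_D W_one_inter W_le_D cut_zero cut_last dep_add
  dep_zero dep_eq_zero dep_two cut shift dep)

section int

variable {F : Type} [Field F] {C : Type} [AddCommGroup C] [Module ℚ C] (M : MotivicIt C F)

theorem I_loop (n : ℕ) (a : ℕ → F) (hn : 1 ≤ n) (h : a 0 = a (n + 1)) : M.I n a = 0 :=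
  M.I_loop n a hn h

theorem I_mem_D (n : ℕ) : ∀ a : ℕ → F, 1 ≤ n → M.I n a ∈ M.D (dep n a) := by
  induction n using Nat.strong_induction_on with
  | _ n ih =>
    intro a hn
    rcases Nat.lt_or_ge n 2 with h | h
    · have h1 : n = 1 := by omega
      subst h1
      exact W_one_le_D M.toLieCoalg _ (M.I_mem 1 a le_rfl)
    · rcases Nat.eq_zero_or_pos (dep n a) with h0 | h0
      · rw [M.I_zero n a h (fun t h1 h2 => dep_zero n a h0 t h1 h2)]
        exact Submodule.zero_mem _
      · obtain ⟨k, hk⟩ : ∃ k, dep n a = k + 1 := ⟨dep n a - 1, by omega⟩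
        rw [hk, mem_D_succ, M.d_I n a hn]
        refine Submodule.sum_mem _ fun m hm => Submodule.sum_mem _ fun i hi => ?_
        rw [Finset.mem_Ico] at hm
        rw [Finset.mem_range] at hi
        have h4 := dep_add n i m a (by omega) (by omega)
        have h5 := ih (n - m) (by omega) (cut i m a) (by omega)
        have h6 := ih m (by omega) (shift i a) (by omega)
        rcases Nat.eq_zero_or_pos (dep m (shift i a)) with h7 | h7
        · rw [h7] at h6
          exact Submodule.mem_sup_left (mem_wedge' h6 Submodule.mem_top)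
        · rcases Nat.eq_zero_or_pos (dep (n - m) (cut i m a)) with h8 | h8
          · rw [h8] at h5
            exact Submodule.mem_sup_left (mem_wedge h5 Submodule.mem_top)
          · exact Submodule.mem_sup_right (mem_wedge (D_mono M.toLieCoalg (by omega) h5)
              (D_mono M.toLieCoalg (by omega) h6))

theorem mpl_le (k : ℕ) : mpl M k ≤ M.D k := by
  rw [mpl, Submodule.span_le]
  rintro _ ⟨n, a, hn, -, -, -, hd, rfl⟩
  exact D_mono M.toLieCoalg hd (I_mem_D M n a hn)

end int

end Pool.Agent.V8H63.TD
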