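import Pool.Agent.V8H63.TD.Sq
import Pool.Agent.Y775.W3.TopG

set_option autoImplicit false

/-!
# The top depth part
-/

namespace Pool.Agent.V8H63.TD

open scoped TensorProduct
open Pool.Agent.TH358.MC
open Pool.Agent.TH358.MD hiding mpl mplO I_loop I_mem_D mpl_le pr_d_I rn_G sym sym_zero sym_succ
  sym_last rn_sym I_dep_zero d_J d_K Lin Lin_mem Lin_one Lin_succ eq_of_d eq_J eq_K Lin_frob Lin_frob'
  SM SM_congr sym_SM fs fs_zero_zero fs_zero_pos fs_succ fs_succ_zero fs_cons fs_congr sym_fs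
  sym_one_eq key Scl Tk_le mpl_mono mplO_mono mplO_le dep_le_one mpl_one mplO_one D_le_mplO D_eq
  D_eqO D_eq_ratFunc
open Y775.W3 (W_le_D_half graded_form)

section words

variable {C : Type} [AddCommGroup C] [Module ℚ C]

/-- the tensor `u_1 ⊗ ... ⊗ u_k` -/
def q2 : List (C × C) → (List (C →ₗ[ℚ] ℚ) → ℚ)
  | [] => fun l => ev l []
  | (p :: ps) => consf p.1 (q2 ps)

/-- the sum of the tensors with one factor `v_i` and the other factors `u_j` -/
def q3 : List (C × C) → (List (C →ₗ[ℚ] ℚ) → ℚ)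
  | [] => 0
  | (p :: ps) => consf p.2 (q2 ps) + consf p.1 (q3 ps)

theorem q2_cons (p : C × C) (ps : List (C × C)) : q2 (p :: ps) = consL p.1 (q2 ps) := rfl

theorem q3_cons (p : C × C) (ps : List (C × C)) :
    q3 (p :: ps) = consL p.2 (q2 ps) + consL p.1 (q3 ps) := rfl

theorem q2_add (l1 : List (C × C)) (p p' : C × C) (l2 : List (C × C)) :
    q2 (l1 ++ (p + p') :: l2) = q2 (l1 ++ p :: l2) + q2 (l1 ++ p' :: l2) := by
  induction l1 with
  | nil =>
    rw [List.nil_append, List.nil_append, List.nil_append, q2_cons, q2_cons, q2_cons,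
      Prod.fst_add, map_add, LinearMap.add_apply]
  | cons q l1 ih =>
    rw [List.cons_append, List.cons_append, List.cons_append, q2_cons, q2_cons, q2_cons, ih,
      map_add]

theorem q3_add (l1 : List (C × C)) (p p' : C × C) (l2 : List (C × C)) :
    q3 (l1 ++ (p + p') :: l2) = q3 (l1 ++ p :: l2) + q3 (l1 ++ p' :: l2) := by
  induction l1 with
  | nil =>
    rw [List.nil_append, List.nil_append, List.nil_append, q3_cons, q3_cons, q3_cons,
      Prod.fst_add, Prod.snd_add, map_add, map_add, LinearMap.add_apply, LinearMap.add_apply]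
    abel
  | cons q l1 ih =>
    rw [List.cons_append, List.cons_append, List.cons_append, q3_cons, q3_cons, q3_cons, ih,
      q2_add, map_add, map_add]
    abel

theorem q2_ev (l : List (C × C)) : q2 l = fun m => ev m (l.map Prod.fst) := by
  induction l with
  | nil => rfl
  | cons p l ih =>
    rw [q2_cons, ih, List.map_cons]
    exact consf_ev p.1 (l.map Prod.fst)

theorem q2_zero (l1 : List (C × C)) (v : C) (l2 : List (C × C)) :
    q2 (l1 ++ ((0 : C), v) :: l2) = 0 := by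
  induction l1 with
  | nil => rw [List.nil_append, q2_cons, map_zero, LinearMap.zero_apply]
  | cons q l1 ih => rw [List.cons_append, q2_cons, ih, map_zero]

theorem q3_zero (l1 : List (C × C)) (v : C) (l2 : List (C × C)) :
    q3 (l1 ++ ((0 : C), v) :: l2) =
      fun m => ev m (l1.map Prod.fst ++ v :: l2.map Prod.fst) := by
  induction l1 with
  | nil =>
    rw [List.nil_append, q3_cons, map_zero, LinearMap.zero_apply, add_zero, q2_ev]
    exact consf_ev v (l2.map Prod.fst)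
  | cons q l1 ih =>
    rw [List.cons_append, q3_cons, q2_zero, map_zero, zero_add, ih]
    exact consf_ev q.1 _

/-- the tensors with one factor in `S'` and the other `k - 1` factors in `S` -/
def Ta (S S' : Set C) (k : ℕ) : Submodule ℚ (List (C →ₗ[ℚ] ℚ) → ℚ) :=
  Submodule.span ℚ {Φ | ∃ (b : List C) (v : C) (b' : List C), b.length + b'.length + 1 = k ∧
    (∀ c ∈ b, c ∈ S) ∧ v ∈ S' ∧ (∀ c ∈ b', c ∈ S) ∧ Φ = fun l => ev l (b ++ v :: b')}

theorem span2 {P : Type} [AddCommGroup P] [Module ℚ P] {N : Type} [AddCommGroup N] [Module ℚ N]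
    (U : Submodule ℚ P) (s : Set C) (t : Set N) (B : C →ₗ[ℚ] N →ₗ[ℚ] P)
    (h : ∀ x ∈ s, ∀ y ∈ t, B x y ∈ U) (x : C) (hx : x ∈ Submodule.span ℚ s) (y : N)
    (hy : y ∈ Submodule.span ℚ t) : B x y ∈ U := by
  have h1 : ∀ x ∈ s, ∀ y ∈ Submodule.span ℚ t, B x y ∈ U := by
    intro x hx y hy
    have h2 : Submodule.span ℚ t ≤ U.comap (B x) := by
      rw [Submodule.span_le]
      exact fun z hz => h x hx z hz
    exact h2 hy
  have h2 : Submodule.span ℚ s ≤ U.comap (B.flip y) := by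
    rw [Submodule.span_le]
    exact fun z hz => h1 z hz y hy
  exact h2 hx

theorem consf_Ta (S S' : Set C) (k : ℕ) (u : C) (hu : u ∈ Submodule.span ℚ S)
    (Φ : List (C →ₗ[ℚ] ℚ) → ℚ) (hΦ : Φ ∈ Ta S S' k) : consf u Φ ∈ Ta S S' (k + 1) := by
  refine span2 (Ta S S' (k + 1)) S _ (consL (C := C)) ?_ u hu Φ hΦ
  rintro s hs _ ⟨b, v, b', hk, hb, hv, hb', rfl⟩
  refine Submodule.subset_span ⟨s :: b, v, b', by rw [List.length_cons]; omega, ?_, hv, hb',
    consf_ev s _⟩
  intro c hc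
  rcases List.mem_cons.1 hc with h | h
  · rw [h]; exact hs
  · exact hb c h

theorem consf_Tk (S S' : Set C) (k : ℕ) (u : C) (hu : u ∈ Submodule.span ℚ S')
    (Φ : List (C →ₗ[ℚ] ℚ) → ℚ) (hΦ : Φ ∈ Tk S k) : consf u Φ ∈ Ta S S' (k + 1) := by
  refine span2 (Ta S S' (k + 1)) S' _ (consL (C := C)) ?_ u hu Φ hΦ
  rintro s hs _ ⟨b, hk, hb, rfl⟩
  exact Submodule.subset_span ⟨[], s, b, by rw [List.length_nil]; omega, by simp, hs, hb,
    consf_ev s _⟩

end words

section sym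

variable {C : Type} [AddCommGroup C] [Module ℚ C] (L : LieCoalg C)

/-- the elements of `Λ²` which have a symbol in `P` -/
def SyP (P : Submodule ℚ (List (C →ₗ[ℚ] ℚ) → ℚ)) (k : ℕ) : Submodule ℚ (ExteriorAlgebra ℚ C) where
  carrier := {w | ∃ Φ ∈ P, ∀ f l, NN L f → NL L k l → pr f (rn L l) w = Φ (f :: l)}
  zero_mem' := ⟨0, Submodule.zero_mem _, fun f l _ _ => by rw [map_zero]; rfl⟩
  add_mem' := by
    rintro x y ⟨Φ, h1, h2⟩ ⟨Ψ, h3, h4⟩
    refine ⟨Φ + Ψ, Submodule.add_mem _ h1 h3, fun f l hf hl => ?_⟩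
    rw [map_add, h2 f l hf hl, h4 f l hf hl]
    rfl
  smul_mem' := by
    rintro r x ⟨Φ, h1, h2⟩
    refine ⟨r • Φ, Submodule.smul_mem _ _ h1, fun f l hf hl => ?_⟩
    rw [map_smul, h2 f l hf hl]
    rfl

/-- the elements with a symbol in `P` -/
def HasSym (P : Submodule ℚ (List (C →ₗ[ℚ] ℚ) → ℚ)) (k : ℕ) (a : C) : Prop :=
  ∃ Φ ∈ P, ∀ l, NL L k l → rn L l a = Φ l

theorem hasSym_one (P : Submodule ℚ (List (C →ₗ[ℚ] ℚ) → ℚ)) (a : C)
    (h : consf a (fun l => ev l []) ∈ P) : HasSym L P 1 a := by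
  refine ⟨_, h, fun l hl => ?_⟩
  obtain ⟨f, l', rfl, hf, hl'⟩ := NL_exists L hl
  have h0 : l' = [] := List.length_eq_zero_iff.1 hl'.1
  subst h0
  rw [consf_cons]
  change f a = f a * 1
  rw [mul_one]

/-- the step -/
theorem hasSym_step (P : Submodule ℚ (List (C →ₗ[ℚ] ℚ) → ℚ)) (k n : ℕ) (a : C) (ha : a ∈ L.W n)
    (h : ∀ i j, i + j = n → 2 ≤ i → 2 ≤ j → ∀ u ∈ L.W i, ∀ v ∈ L.W j,
      ∃ Θ ∈ P, ∀ (f : C →ₗ[ℚ] ℚ) (l : List (C →ₗ[ℚ] ℚ)), NL L (k + 1) l →
        f u * rn L l v = Θ (f :: l)) : HasSym L P (k + 2) a := by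
  suffices hs : L.d (ExteriorAlgebra.ι ℚ a) ∈ SyP L P (k + 1) by
    obtain ⟨Φ, h1, h2⟩ := hs
    refine ⟨Φ, h1, fun l hl => ?_⟩
    obtain ⟨f, l', rfl, hf, hl'⟩ := NL_exists L hl
    rw [rn_cons L f l' (NL_ne_nil L hl'), br_apply, h2 f l' hf hl']
  have hW1 : wedge (L.W 1) ⊤ ≤ SyP L P (k + 1) := by
    intro w hw
    exact ⟨0, Submodule.zero_mem _, fun f l hf hl => by
      rw [pr_W_one L f _ hf (rn_NN L hl) w hw]; rfl⟩
  refine (WW_le L n _ ?_) (L.d_W n a ha)
  intro i j hij u hu v hv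
  by_cases hi0 : i = 0
  · rw [hi0, L.W_zero, Submodule.mem_bot] at hu
    rw [hu, map_zero, zero_mul]
    exact Submodule.zero_mem _
  by_cases hj0 : j = 0
  · rw [hj0, L.W_zero, Submodule.mem_bot] at hv
    rw [hv, map_zero, mul_zero]
    exact Submodule.zero_mem _
  by_cases hi : i = 1
  · subst hi
    exact hW1 (mem_wedge hu Submodule.mem_top)
  by_cases hj : j = 1
  · subst hj
    exact hW1 (mem_wedge' hv Submodule.mem_top)
  obtain ⟨Θ, h1, h2⟩ := h i j hij (by omega) (by omega) u hu v hv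
  obtain ⟨Θ', h3, h4⟩ := h j i (by omega) (by omega) (by omega) v hv u hu
  refine ⟨Θ - Θ', Submodule.sub_mem _ h1 h3, fun f l hf hl => ?_⟩
  rw [pr_two, h2 f l hl, h4 f l hl]
  rfl

theorem low_zero (k j : ℕ) (hj : j ≤ 2 * k + 1) (v : C) (hv : v ∈ L.W j)
    (l : List (C →ₗ[ℚ] ℚ)) (hl : NL L (k + 1) l) : rn L l v = 0 :=
  (char L k v).1 (W_le_D_half L k j hj hv) l hl

variable (S S' : Set C) (h2 : L.W 2 ≤ Submodule.span ℚ S)

include h2

theorem sym_even (k : ℕ) : ∀ a ∈ L.W (2 * (k + 1)), HasSym L (Tk S (k + 1)) (k + 1) a := by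
  induction k with
  | zero =>
    intro a ha
    exact hasSym_one L _ a (consf_mem S 0 a (h2 ha) _
      (Submodule.subset_span ⟨[], rfl, by simp, rfl⟩))
  | succ k ih =>
    intro a ha
    refine hasSym_step L _ k _ a ha ?_
    intro i j hij hi hj u hu v hv
    rcases Nat.lt_or_ge (2 * k + 1) j with h | h
    · obtain rfl : i = 2 := by omega
      obtain rfl : j = 2 * (k + 1) := by omega
      obtain ⟨Φ, h3, h4⟩ := ih v hv
      exact ⟨consf u Φ, consf_mem S (k + 1) u (h2 hu) Φ h3, fun f l hl => by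
        rw [h4 l hl, consf_cons]⟩
    · exact ⟨0, Submodule.zero_mem _, fun f l hl => by
        rw [low_zero L k j h v hv l hl, mul_zero]; rfl⟩

theorem sym_odd (h3 : L.W 3 ≤ Submodule.span ℚ S') (k : ℕ) :
    ∀ a ∈ L.W (2 * (k + 1) + 1), HasSym L (Ta S S' (k + 1)) (k + 1) a := by
  induction k with
  | zero =>
    intro a ha
    exact hasSym_one L _ a (consf_Tk S S' 0 a (h3 ha) _
      (Submodule.subset_span ⟨[], rfl, by simp, rfl⟩))
  | succ k ih =>
    intro a ha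
    refine hasSym_step L _ k _ a ha ?_
    intro i j hij hi hj u hu v hv
    rcases Nat.lt_or_ge (2 * k + 1) j with h | h
    · obtain h' | h' : j = 2 * (k + 1) ∨ j = 2 * (k + 1) + 1 := by omega
      · obtain rfl : i = 3 := by omega
        subst h'
        obtain ⟨Φ, h5, h4⟩ := sym_even L S h2 k v hv
        exact ⟨consf u Φ, consf_Tk S S' (k + 1) u (h3 hu) Φ h5, fun f l hl => by
          rw [h4 l hl, consf_cons]⟩
      · obtain rfl : i = 2 := by omega
        subst h'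
        obtain ⟨Φ, h5, h4⟩ := ih v hv
        exact ⟨consf u Φ, consf_Ta S S' (k + 1) u (h2 hu) Φ h5, fun f l hl => by
          rw [h4 l hl, consf_cons]⟩
    · exact ⟨0, Submodule.zero_mem _, fun f l hl => by
        rw [low_zero L k j h v hv l hl, mul_zero]; rfl⟩

end sym

end Pool.Agent.V8H63.TD
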