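import Pool.Agent.V8H63.TD.Seq

set_option autoImplicit false

/-!
# Classical polylogarithms as iterated integrals
-/

namespace Pool.Agent.V8H63.TD

open scoped TensorProduct
open Pool.Agent.TH358.MC
open Pool.Agent.TH358.MD hiding mpl mplO I_loop I_mem_D mpl_le pr_d_I rn_G sym sym_zero sym_succ
  sym_last rn_sym I_dep_zero d_J d_K Lin Lin_mem Lin_one Lin_succ eq_of_d eq_J eq_K Lin_frob Lin_frob'

section int

variable {F : Type} [Field F] {C : Type} [AddCommGroup C] [Module ℚ C] (M : MotivicIt C F)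

theorem I_dep_zero (n : ℕ) (a : ℕ → F) (hn : 2 ≤ n) (h : ∀ t, 1 ≤ t → t ≤ n → a t = 0) :
    M.I n a = 0 := by
  have h1 := I_mem_D M n a (by omega)
  rw [dep_eq_zero n a h] at h1
  exact W_one_inter M.toLieCoalg n (by omega) _ h1 (M.I_mem n a (by omega))

theorem d_J (s : ℕ) (hs : 1 ≤ s) (x : F) (y : ℕ → F) :
    M.d (ExteriorAlgebra.ι ℚ (M.I (s + 1) (gseq 1 s x y))) =
      ExteriorAlgebra.ι ℚ (M.I s (gseq 1 (s - 1) x y)) *
        ExteriorAlgebra.ι ℚ (M.φ (cls (y 1) - cls x)) := by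
  rw [M.d_I _ _ (by omega)]
  set a := gseq 1 s x y with ha
  have hm0 : ∀ t, 1 < t → t ≤ s + 1 → a t = 0 := fun t h1 h2 =>
    gseq_mid _ _ _ _ _ h1 (by omega)
  rw [Finset.sum_eq_single 1]
  · have h1 : s + 1 - 1 + 1 = s + 1 := by omega
    rw [h1, Finset.sum_range_succ']
    have h2 : M.I 1 (shift 0 a) = 0 := by
      apply I_loop M 1 _ le_rfl
      change a (0 + 0) = a (1 + 1 + 0)
      rw [hm0 (1 + 1 + 0) (by omega) (by omega)]
      exact gseq_zero _ _ _ _
    rw [h2, map_zero, mul_zero, add_zero]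
    have h3 : ∀ i ∈ Finset.range s, ExteriorAlgebra.ι ℚ (M.I (s + 1 - 1) (cut (i + 1) 1 a)) *
        ExteriorAlgebra.ι ℚ (M.I 1 (shift (i + 1) a)) =
        ExteriorAlgebra.ι ℚ (M.I s (gseq 1 (s - 1) x y)) *
          ExteriorAlgebra.ι ℚ ((M.φ (cls (a (i + 1 + 2))) + M.φ (cls (a (i + 1 + 1)))) -
            (M.φ (cls (a (i + 2))) + M.φ (cls (a (i + 1))))) := by
      intro i hi
      rw [Finset.mem_range] at hi
      have h4 : cut (i + 1) 1 a = gseq 1 (s - 1) x y := by
        funext t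
        unfold cut
        by_cases ht : t ≤ i + 1
        · rw [if_pos ht]
          rcases Nat.eq_zero_or_pos t with h0 | h0
          · rw [h0, ha, gseq_zero, gseq_zero]
          · rcases Nat.lt_or_ge 1 t with h5 | h5
            · rw [hm0 t h5 (by omega), gseq_mid _ _ _ _ _ h5 (by omega)]
            · rw [ha, gseq_x _ _ _ _ _ h0 h5, gseq_x _ _ _ _ _ h0 h5]
        · rw [if_neg ht]
          rcases Nat.lt_or_ge s t with h5 | h5
          · rw [ha, gseq_y _ _ _ _ _ (by omega), gseq_y _ _ _ _ _ (by omega)]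
            congr 1
            omega
          · rw [hm0 _ (by omega) (by omega), gseq_mid _ _ _ _ _ (by omega) (by omega)]
      have h5 : M.I 1 (shift (i + 1) a) = (M.φ (cls (a (i + 1 + 2))) + M.φ (cls (a (i + 1 + 1)))) -
            (M.φ (cls (a (i + 2))) + M.φ (cls (a (i + 1)))) := by
        rw [M.I_one]
        have e0 : shift (i + 1) a 0 = a (i + 1) := by
          change a (0 + (i + 1)) = _
          rw [zero_add]
        have e1 : shift (i + 1) a 1 = 0 := by
          change a (1 + (i + 1)) = _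
          exact hm0 _ (by omega) (by omega)
        have e2 : shift (i + 1) a 2 = a (i + 1 + 2) := by
          change a (2 + (i + 1)) = _
          rw [add_comm]
        rw [e0, e1, e2, zero_sub, zero_sub, cls_neg, cls_neg]
        abel
      rw [h4, h5]
      rfl
    rw [Finset.sum_congr rfl h3, ← Finset.mul_sum, ← map_sum,
      Finset.sum_range_sub (fun i => M.φ (cls (a (i + 2))) + M.φ (cls (a (i + 1)))) s]
    have e1 : a (s + 2) = y 1 := by
      rw [ha, gseq_y _ _ _ _ _ (by omega)]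
      congr 1
      omega
    have e2 : a (s + 1) = 0 := hm0 _ (by omega) le_rfl
    have e3 : a (0 + 2) = 0 := hm0 _ (by omega) (by omega)
    have e4 : a (0 + 1) = x := gseq_x _ _ _ _ _ (by omega) (by omega)
    rw [e1, e2, e3, e4, cls_zero, map_zero, add_zero, zero_add,
      map_sub M.φ (cls (y 1)) (cls x)]
  · intro m hm hm1
    rw [Finset.mem_Ico] at hm
    refine Finset.sum_eq_zero fun i hi => ?_
    rw [Finset.mem_range] at hi
    have h2 : M.I m (shift i a) = 0 := by
      rcases Nat.eq_zero_or_pos i with h0 | h0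
      · subst h0
        apply I_loop M m _ hm.1
        change a (0 + 0) = a (m + 1 + 0)
        rw [hm0 (m + 1 + 0) (by omega) (by omega)]
        exact gseq_zero _ _ _ _
      · apply I_dep_zero M m _ (by omega)
        intro t h1 h2
        exact hm0 (t + i) (by omega) (by omega)
    rw [h2, map_zero, mul_zero]
  · intro h
    exact absurd (Finset.mem_Ico.2 ⟨le_rfl, by omega⟩) h

theorem d_K (s : ℕ) (hs : 1 ≤ s) (x : F) (y : ℕ → F) :
    M.d (ExteriorAlgebra.ι ℚ (M.I (s + 1) (gseq 0 s x y))) =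
      ExteriorAlgebra.ι ℚ (M.I s (gseq 0 (s - 1) x y)) *
        ExteriorAlgebra.ι ℚ (M.φ (cls (y 1) - cls (y 2))) := by
  rw [M.d_I _ _ (by omega)]
  set a := gseq 0 s x y with ha
  have hm0 : ∀ t, t ≤ s → a t = 0 := by
    intro t h2
    rcases Nat.eq_zero_or_pos t with h0 | h0
    · rw [h0, ha, gseq_zero]
    · exact gseq_mid _ _ _ _ _ h0 (by omega)
  have hy1 : a (s + 1) = y 1 := by
    rw [ha, gseq_y _ _ _ _ _ (by omega)]
    congr 1
    omega
  have hy2 : a (s + 2) = y 2 := by
    rw [ha, gseq_y _ _ _ _ _ (by omega)]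
    congr 1
    omega
  set A := ExteriorAlgebra.ι ℚ (M.I s (gseq 0 (s - 1) x y)) *
    ExteriorAlgebra.ι ℚ (M.φ (cls (y 1))) with hA
  set B := ExteriorAlgebra.ι ℚ (M.φ (cls (y 2))) *
    ExteriorAlgebra.ι ℚ (M.I s (gseq 0 (s - 1) x y)) with hB
  have key : ∀ m ∈ Finset.Ico 1 (s + 1), ∀ i ∈ Finset.range (s + 1 - m + 1),
      ExteriorAlgebra.ι ℚ (M.I (s + 1 - m) (cut i m a)) * ExteriorAlgebra.ι ℚ (M.I m (shift i a)) =
        (if m = 1 ∧ i = s - 1 then A else 0) + (if m = s ∧ i = 1 then B else 0) := by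
    intro m hm i hi
    rw [Finset.mem_Ico] at hm
    rw [Finset.mem_range] at hi
    by_cases c1 : m = 1 ∧ i = s - 1
    · obtain ⟨rfl, rfl⟩ := c1
      rw [if_pos ⟨rfl, rfl⟩, if_neg (by omega), add_zero]
      have h4 : cut (s - 1) 1 a = gseq 0 (s - 1) x y := by
        funext t
        unfold cut
        by_cases ht : t ≤ s - 1
        · rw [if_pos ht, hm0 t (by omega)]
          rcases Nat.eq_zero_or_pos t with h0 | h0
          · rw [h0, gseq_zero]
          · rw [gseq_mid _ _ _ _ _ h0 (by omega)]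
        · rw [if_neg ht, ha, gseq_y _ _ _ _ _ (by omega), gseq_y _ _ _ _ _ (by omega)]
          congr 1
          omega
      have h5 : M.I 1 (shift (s - 1) a) = M.φ (cls (y 1)) := by
        rw [M.I_one]
        have e0 : shift (s - 1) a 0 = 0 := hm0 _ (by omega)
        have e1 : shift (s - 1) a 1 = 0 := hm0 _ (by omega)
        have e2 : shift (s - 1) a 2 = y 1 := by
          change a (2 + (s - 1)) = _
          rw [← hy1]
          congr 1
          omega
        rw [e0, e1, e2, zero_sub, sub_zero, cls_neg, cls_zero, map_zero, sub_zero]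
      rw [h4, h5]
      rfl
    · rw [if_neg c1, zero_add]
      by_cases c2 : m = s ∧ i = 1
      · obtain ⟨rfl, rfl⟩ := c2
        rw [if_pos ⟨rfl, rfl⟩]
        have h4 : shift 1 a = gseq 0 (m - 1) x y := by
          funext t
          unfold shift
          rcases Nat.lt_or_ge t m with ht | ht
          · rw [hm0 _ (by omega)]
            rcases Nat.eq_zero_or_pos t with h0 | h0
            · rw [h0, gseq_zero]
            · rw [gseq_mid _ _ _ _ _ h0 (by omega)]
          · rw [ha, gseq_y _ _ _ _ _ (by omega), gseq_y _ _ _ _ _ (by omega)]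
            congr 1
            omega
        have h6 : m + 1 - m = 1 := by omega
        have h5 : M.I 1 (cut 1 m a) = M.φ (cls (y 2)) := by
          rw [M.I_one]
          have e0 : cut 1 m a 0 = 0 := by rw [cut_zero]; exact hm0 _ (by omega)
          have e1 : cut 1 m a 1 = 0 := by
            have e3 : cut 1 m a 1 = a 1 := if_pos le_rfl
            rw [e3]
            exact hm0 _ (by omega)
          have e2 : cut 1 m a 2 = y 2 := by
            change a (2 + m) = _
            rw [← hy2, add_comm]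
          rw [e0, e1, e2, zero_sub, sub_zero, cls_neg, cls_zero, map_zero, sub_zero]
        rw [h4, h6, h5]
      · rw [if_neg c2]
        rcases Nat.lt_or_ge s (i + m) with h7 | h7
        · have h8 : M.I (s + 1 - m) (cut i m a) = 0 := by
            have h9 : i ≠ 1 := by
              intro h
              exact c2 ⟨by omega, h⟩
            have h10 : i ≠ 0 := by omega
            apply I_dep_zero M _ _ (by omega)
            intro t h1 h2
            have h11 : cut i m a t = a t := if_pos (by omega)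
            rw [h11]
            exact hm0 _ (by omega)
          rw [h8, map_zero, zero_mul]
        · have h8 : M.I m (shift i a) = 0 := by
            rcases Nat.lt_or_ge 1 m with h9 | h9
            · apply I_dep_zero M _ _ (by omega)
              intro t h1 h2
              exact hm0 (t + i) (by omega)
            · have h10 : m = 1 := by omega
              subst h10
              apply I_loop M 1 _ le_rfl
              change a (0 + i) = a (1 + 1 + i)
              rw [hm0 _ (by omega), hm0 _ (by omega)]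
          rw [h8, map_zero, mul_zero]
  rw [Finset.sum_congr rfl fun m hm => Finset.sum_congr rfl (key m hm)]
  have h1 : ∀ (m0 i0 : ℕ) (X : ExteriorAlgebra ℚ C), 1 ≤ m0 → m0 < s + 1 → i0 ≤ s + 1 - m0 →
      ∑ m ∈ Finset.Ico 1 (s + 1), ∑ i ∈ Finset.range (s + 1 - m + 1),
        (if m = m0 ∧ i = i0 then X else 0) = X := by
    intro m0 i0 X h1 h2 h3
    rw [Finset.sum_eq_single m0]
    · rw [Finset.sum_eq_single i0]
      · rw [if_pos ⟨rfl, rfl⟩]
      · intro i _ hi
        rw [if_neg (fun h => hi h.2)]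
      · intro h
        exact absurd (Finset.mem_range.2 (by omega)) h
    · intro m _ hm
      refine Finset.sum_eq_zero fun i _ => ?_
      rw [if_neg (fun h => hm h.1)]
    · intro h
      exact absurd (Finset.mem_Ico.2 ⟨h1, h2⟩) h
  have h2 : ∑ m ∈ Finset.Ico 1 (s + 1), ∑ i ∈ Finset.range (s + 1 - m + 1),
      ((if m = 1 ∧ i = s - 1 then A else 0) + (if m = s ∧ i = 1 then B else 0)) = A + B := by
    rw [Finset.sum_congr rfl fun m _ => Finset.sum_add_distrib, Finset.sum_add_distrib,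
      h1 1 (s - 1) A le_rfl (by omega) (by omega), h1 s 1 B hs (by omega) (by omega)]
  rw [h2, hA, hB, swap (M.φ (cls (y 2))), map_sub M.φ, map_sub, mul_sub, sub_eq_add_neg]

/-- classical polylogarithms -/
noncomputable def Lin (n : ℕ) (z : F) : C := - M.I n (gseq 1 (n - 1) z⁻¹ (fun _ => 1))

theorem Lin_mem (n : ℕ) (hn : 1 ≤ n) (z : F) : Lin M n z ∈ M.W n :=
  Submodule.neg_mem _ (M.I_mem n _ hn)

theorem Lin_one (z : F) (hz : z ≠ 0) : Lin M 1 z = - M.φ (cls (1 - z)) := by
  unfold Lin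
  have e0 : gseq 1 (1 - 1) z⁻¹ (fun _ => (1 : F)) 0 = 0 := gseq_zero _ _ _ _
  have e1 : gseq 1 (1 - 1) z⁻¹ (fun _ => (1 : F)) 1 = z⁻¹ := gseq_x _ _ _ _ _ le_rfl le_rfl
  have e2 : gseq 1 (1 - 1) z⁻¹ (fun _ => (1 : F)) 2 = 1 := gseq_y _ _ _ _ _ (by omega)
  rw [M.I_one, e0, e1, e2, sub_zero]
  congr 1
  by_cases h1 : z = 1
  · rw [h1, _root_.inv_one, sub_self, cls_zero, cls_one, sub_self, map_zero]
  · have h2 : z⁻¹ - 1 = (1 - z) / z := by field_simp
    rw [h2, cls_div _ _ (sub_ne_zero.2 (Ne.symm h1)) hz, cls_inv, map_neg, map_sub]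
    abel

theorem Lin_succ (n : ℕ) (hn : 1 ≤ n) (z : F) : M.d (ExteriorAlgebra.ι ℚ (Lin M (n + 1) z)) =
    ExteriorAlgebra.ι ℚ (Lin M n z) * ExteriorAlgebra.ι ℚ (M.φ (cls z)) := by
  unfold Lin
  have h1 : n + 1 - 1 = n := by omega
  rw [h1, map_neg, map_neg, d_J M n hn, cls_one, cls_inv, zero_sub, neg_neg, map_neg, neg_mul]


theorem li_eq (n : ℕ) (hn : 1 ≤ n) (z : F) : M.I n (liSeq n z) = - Lin M n z := by
  unfold Lin
  rw [neg_neg]
  apply M.I_congr
  intro t ht
  unfold liSeq
  rcases Nat.eq_zero_or_pos t with h0 | h0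
  · rw [h0, gseq_zero, if_pos rfl]
  rw [if_neg (by omega)]
  by_cases h1 : t = 1
  · rw [if_pos h1, gseq_x _ _ _ _ _ (by omega) (by omega)]
  rw [if_neg h1]
  by_cases h2 : t ≤ n
  · rw [if_pos h2, gseq_mid _ _ _ _ _ (by omega) (by omega)]
  · rw [if_neg h2, gseq_y _ _ _ _ _ (by omega)]

theorem Lin_inv (n : ℕ) (hn : 2 ≤ n) (z : F) (hz : z ≠ 0) :
    Lin M n z⁻¹ = ((-1 : ℚ) ^ (n - 1)) • Lin M n z := by
  have h := M.Li_inv n z hn hz
  rw [li_eq M n (by omega), li_eq M n (by omega), smul_neg] at h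
  exact neg_injective h

theorem Lin_two (n : ℕ) (hn : 2 ≤ n) (z : F) (hz : z ≠ 0) :
    Lin M n (z * z) = ((2 : ℚ) ^ (n - 1)) • (Lin M n z + Lin M n (-z)) := by
  have h := M.Li_two n z hn hz
  rw [li_eq M n (by omega), li_eq M n (by omega), li_eq M n (by omega), ← neg_add, smul_neg] at h
  exact neg_injective h

theorem eq_J (s : ℕ) (hs : 1 ≤ s) (x : F) (hx : x ≠ 0) (y : ℕ → F) (hy : y 1 ≠ 0) :
    M.I (s + 1) (gseq 1 s x y) = - Lin M (s + 1) (y 1 / x) := by
  unfold Lin
  rw [neg_neg]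
  have h := M.I_scale (s + 1) (gseq 1 (s + 1 - 1) (y 1 / x)⁻¹ (fun _ => 1)) (y 1) (by omega) hy
  rw [← h]
  apply M.I_congr
  intro t ht
  change _ = y 1 * _
  have hs1 : s + 1 - 1 = s := by omega
  rw [hs1]
  rcases Nat.eq_zero_or_pos t with h0 | h0
  · rw [h0, gseq_zero, gseq_zero, mul_zero]
  by_cases h1 : t = 1
  · rw [h1, gseq_x _ _ _ _ _ le_rfl le_rfl, gseq_x _ _ _ _ _ le_rfl le_rfl]
    field_simp
  by_cases h2 : t ≤ s + 1
  · rw [gseq_mid _ _ _ _ _ (by omega) (by omega), gseq_mid _ _ _ _ _ (by omega) (by omega),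
      mul_zero]
  · rw [gseq_y _ _ _ _ _ (by omega), gseq_y _ _ _ _ _ (by omega), mul_one]
    congr 1
    omega

theorem eq_K (s : ℕ) (hs : 1 ≤ s) (x : F) (y : ℕ → F) (hy1 : y 1 ≠ 0) (hy2 : y 2 ≠ 0) :
    M.I (s + 1) (gseq 0 s x y) = ((-1 : ℚ) ^ (s + 1)) • Lin M (s + 1) (y 2 / y 1) := by
  have h1 := M.I_rev (s + 1) (gseq 0 s x y) (by omega)
  have h2 : M.I (s + 1) (rev (s + 1) (gseq 0 s x y)) =
      M.I (s + 1) (gseq 1 s (y 1) (fun j => y (j + 1))) := by
    apply M.I_congr
    intro t ht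
    unfold rev
    by_cases h : 1 ≤ t ∧ t ≤ s + 1
    · rw [if_pos h]
      by_cases h1 : t = 1
      · rw [h1, gseq_x _ _ _ _ _ le_rfl le_rfl, gseq_y _ _ _ _ _ (by omega)]
        congr 1
        omega
      · rw [gseq_mid 0 _ _ _ _ (by omega) (by omega), gseq_mid _ _ _ _ _ (by omega) (by omega)]
    · rw [if_neg h]
      rcases Nat.eq_zero_or_pos t with h0 | h0
      · rw [h0, gseq_zero, gseq_zero]
      · rw [gseq_y _ _ _ _ _ (by omega), gseq_y _ _ _ _ _ (by omega)]
        congr 1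
        omega
  rw [h2, eq_J M s hs (y 1) hy1 _ hy2] at h1
  have h3 : s + 1 - 1 = s := by omega
  rw [h3] at h1
  have h4 : M.I (s + 1) (gseq 0 s x y) = ((-1 : ℚ) ^ s) • (((-1 : ℚ) ^ s) •
      M.I (s + 1) (gseq 0 s x y)) := by
    rw [smul_smul, ← mul_pow, neg_one_mul, neg_neg, one_pow, one_smul]
  rw [h4, ← h1, smul_neg, pow_succ, mul_neg_one, neg_smul]

end int

end Pool.Agent.V8H63.TD
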