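import Pool.Agent.V8H63.TD.Int

set_option autoImplicit false

/-!
# The cobracket of some iterated integrals modulo lower depth
-/

namespace Pool.Agent.V8H63.TD

open scoped TensorProduct
open Pool.Agent.TH358.MC
open Pool.Agent.TH358.MD hiding mpl mplO I_loop I_mem_D mpl_le pr_d_I rn_G sym sym_zero sym_succ
  sym_last rn_sym

section int

variable {F : Type} [Field F] {C : Type} [AddCommGroup C] [Module ℚ C] (M : MotivicIt C F)

theorem pr_d_I (n : ℕ) (a : ℕ → F) (hn : 1 ≤ n) (f g : C →ₗ[ℚ] ℚ) :
    pr f g (M.d (ExteriorAlgebra.ι ℚ (M.I n a))) =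
      ∑ m ∈ Finset.Ico 1 n, ∑ i ∈ Finset.range (n - m + 1),
        f (M.I (n - m) (cut i m a)) * g (M.I m (shift i a)) -
      ∑ m ∈ Finset.Ico 1 n, ∑ i ∈ Finset.range (n - m + 1),
        f (M.I m (shift i a)) * g (M.I (n - m) (cut i m a)) := by
  rw [M.d_I n a hn, map_sum, ← Finset.sum_sub_distrib]
  refine Finset.sum_congr rfl fun m _ => ?_
  rw [map_sum, ← Finset.sum_sub_distrib]
  refine Finset.sum_congr rfl fun i _ => ?_
  rw [pr_two]

theorem rn_G (e s d : ℕ) (he : e ≤ 1) (x : F) (hx : x ≠ 0) (y : ℕ → F) (hy : ∀ j, y j ≠ 0)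
    (f : C →ₗ[ℚ] ℚ) (l : List (C →ₗ[ℚ] ℚ)) (hf : NN M.toLieCoalg f)
    (hl : NL M.toLieCoalg (d + 1) l) :
    rn M.toLieCoalg (f :: l) (M.I (s + d + 2) (gseq e s x y)) =
      ∑ r ∈ Finset.Ico 1 s, f (M.I (s - r + 1) (gseq e (s - r) x (fun j => y (j + (d + 1))))) *
        rn M.toLieCoalg l (M.I (r + (d + 1)) (gseq 0 r x y)) -
      ∑ r ∈ Finset.Ico 1 s, f (M.I (r + 1) (gseq 0 r x y)) *
        rn M.toLieCoalg l (M.I (s - r + (d + 1)) (gseq e (s - r) x (fun j => y (j + 1)))) := by
  have hrD : ∀ c ∈ M.D d, rn M.toLieCoalg l c = 0 := fun c hc =>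
    (char M.toLieCoalg d c).1 hc l hl
  have hrW : ∀ m, 1 ≤ m → m ≤ d + 1 → ∀ c ∈ M.W m, rn M.toLieCoalg l c = 0 := by
    intro m h1 h2 c hc
    obtain ⟨m', rfl⟩ : ∃ k, m = k + 1 := ⟨m - 1, by omega⟩
    exact hrD c (D_mono M.toLieCoalg (by omega) (W_le_D M.toLieCoalg m' hc))
  have htot := dep_gseq e s d x y he
  set a := gseq e s x y with ha
  have hn0 : ∀ t, e + s < t → a t ≠ 0 := by
    intro t ht
    rw [ha, gseq_y _ _ _ _ _ ht]
    exact hy _
  have hm0 : ∀ t, e < t → t ≤ e + s → a t = 0 := fun t h1 h2 => gseq_mid _ _ _ _ _ h1 h2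
  rw [rn_cons M.toLieCoalg f l (NL_ne_nil M.toLieCoalg hl), br_apply, pr_d_I M _ a (by omega)]
  congr 1
  · rw [sum_special (s + d + 2) s e (d + 1) (fun m i => f (M.I (s + d + 2 - m) (cut i m a)) *
      rn M.toLieCoalg l (M.I m (shift i a)))]
    · refine Finset.sum_congr rfl fun r hr => ?_
      rw [Finset.mem_Ico] at hr
      rw [ha, cut_gseq e s r (d + 1) x y hr.2 (by omega), shift_gseq e s r x y hr.2]
      have h1 : s + d + 2 - (r + (d + 1)) = s - r + 1 := by omega
      rw [h1]
    · intro r h1 h2
      omega
    · intro m i hm1 hm2 hi hne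
      have hf0 : f (M.I (s + d + 2 - m) (cut i m a)) ≠ 0 := fun h => hne (by rw [h, zero_mul])
      have hr0 : rn M.toLieCoalg l (M.I m (shift i a)) ≠ 0 := fun h => hne (by rw [h, mul_zero])
      have hout := I_mem_D M (s + d + 2 - m) (cut i m a) (by omega)
      have hin := I_mem_D M m (shift i a) hm1
      have hadd := dep_add (s + d + 2) i m a hi (by omega)
      have c1 : 2 ≤ s + d + 2 - m := by
        by_contra hc
        have h1 : s + d + 2 - m = 1 := by omega
        rw [h1] at hf0
        exact hf0 (hf _ (M.I_mem 1 _ le_rfl))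
      have c2 : 1 ≤ dep (s + d + 2 - m) (cut i m a) := by
        by_contra hc
        have h1 : dep (s + d + 2 - m) (cut i m a) = 0 := by omega
        rw [h1] at hout
        exact hf0 (hf _ hout)
      have c3 : d + 2 ≤ m := by
        by_contra hc
        exact hr0 (hrW m hm1 (by omega) _ (M.I_mem m _ hm1))
      have c4 : d + 1 ≤ dep m (shift i a) := by
        by_contra hc
        exact hr0 (hrD _ (D_mono M.toLieCoalg (by omega) hin))
      have c5 : dep (s + d + 2 - m) (cut i m a) ≤ 1 := by omega
      have hcl : ∀ t, t ≤ i → cut i m a t = a t := fun t ht => if_pos ht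
      have hcr : ∀ t, i < t → cut i m a t = a (t + m) := fun t ht => if_neg (by omega)
      have htwo : ∀ p q, 1 ≤ p → p < q → q ≤ s + d + 2 - m → cut i m a p ≠ 0 →
          cut i m a q ≠ 0 → False := by
        intro p q h1 h2 h3 h4 h5
        have := dep_two _ _ p q h1 h2 h3 h4 h5
        omega
      rcases Nat.lt_or_ge e 1 with he0 | he1
      · have he' : e = 0 := by omega
        subst he'
        rcases Nat.lt_or_ge (i + m) (s + d + 2) with h6 | h6
        · have h7 : cut i m a (s + d + 2 - m) ≠ 0 := by
            rw [hcr _ (by omega)]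
            exact hn0 _ (by omega)
          have h8 : i ≤ s := by
            by_contra hc
            refine htwo (s + 1) (s + d + 2 - m) (by omega) (by omega) le_rfl ?_ h7
            rw [hcl _ (by omega)]
            exact hn0 _ (by omega)
          have h9 : i + m = s + d + 1 := by
            by_contra hc
            refine htwo (s + d + 2 - m - 1) (s + d + 2 - m) (by omega) (by omega) le_rfl ?_ h7
            rw [hcr _ (by omega)]
            exact hn0 _ (by omega)
          exact ⟨m - (d + 1), by omega, by omega, by omega, by omega⟩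
        · exfalso
          rcases Nat.lt_or_ge s i with h7 | h7
          · rcases Nat.lt_or_ge (s + 1) i with h8 | h8
            · refine htwo (s + 1) (s + 2) (by omega) (by omega) (by omega) ?_ ?_
              · rw [hcl _ (by omega)]
                exact hn0 _ (by omega)
              · rw [hcl _ (by omega)]
                exact hn0 _ (by omega)
            · omega
          · have h8 : dep (s + d + 2 - m) (cut i m a) = 0 := by
              apply dep_eq_zero
              intro t h1 h2
              rw [hcl _ (by omega)]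
              exact hm0 _ (by omega) (by omega)
            omega
      · have he' : e = 1 := by omega
        subst he'
        have hx1 : a 1 ≠ 0 := by
          rw [ha, gseq_x _ _ _ _ _ le_rfl le_rfl]
          exact hx
        rcases Nat.eq_zero_or_pos i with h6 | h6
        · exfalso
          subst h6
          rcases Nat.lt_or_ge s m with h7 | h7
          · refine htwo 1 2 (by omega) (by omega) (by omega) ?_ ?_
            · rw [hcr _ (by omega)]
              exact hn0 _ (by omega)
            · rw [hcr _ (by omega)]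
              exact hn0 _ (by omega)
          · apply hr0
            rw [I_loop M m (shift 0 a) hm1, map_zero]
            change a (0 + 0) = a (m + 1 + 0)
            rw [hm0 (m + 1 + 0) (by omega) (by omega)]
            exact gseq_zero _ _ _ _
        · have h7 : i + m = s + d + 2 := by
            by_contra hc
            refine htwo 1 (s + d + 2 - m) le_rfl (by omega) le_rfl ?_ ?_
            · rw [hcl _ (by omega)]
              exact hx1
            · rw [hcr _ (by omega)]
              exact hn0 _ (by omega)
          exact ⟨m - (d + 1), by omega, by omega, by omega, by omega⟩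
  · rw [sum_special (s + d + 2) s e 1 (fun m i => f (M.I m (shift i a)) *
      rn M.toLieCoalg l (M.I (s + d + 2 - m) (cut i m a)))]
    · refine Finset.sum_congr rfl fun r hr => ?_
      rw [Finset.mem_Ico] at hr
      rw [ha, cut_gseq e s r 1 x y hr.2 (by omega), shift_gseq e s r x y hr.2]
      have h1 : s + d + 2 - (r + 1) = s - r + (d + 1) := by omega
      rw [h1]
    · intro r h1 h2
      omega
    · intro m i hm1 hm2 hi hne
      have hf0 : f (M.I m (shift i a)) ≠ 0 := fun h => hne (by rw [h, zero_mul])
      have hr0 : rn M.toLieCoalg l (M.I (s + d + 2 - m) (cut i m a)) ≠ 0 :=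
        fun h => hne (by rw [h, mul_zero])
      have hout := I_mem_D M (s + d + 2 - m) (cut i m a) (by omega)
      have hin := I_mem_D M m (shift i a) hm1
      have hadd := dep_add (s + d + 2) i m a hi (by omega)
      have c1 : 2 ≤ m := by
        by_contra hc
        have h1 : m = 1 := by omega
        rw [h1] at hf0
        exact hf0 (hf _ (M.I_mem 1 _ le_rfl))
      have c2 : 1 ≤ dep m (shift i a) := by
        by_contra hc
        have h1 : dep m (shift i a) = 0 := by omega
        rw [h1] at hin
        exact hf0 (hf _ hin)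
      have c3 : d + 2 ≤ s + d + 2 - m := by
        by_contra hc
        exact hr0 (hrW _ (by omega) (by omega) _ (M.I_mem _ _ (by omega)))
      have c4 : d + 1 ≤ dep (s + d + 2 - m) (cut i m a) := by
        by_contra hc
        exact hr0 (hrD _ (D_mono M.toLieCoalg (by omega) hout))
      have c5 : dep m (shift i a) ≤ 1 := by omega
      have hsh : ∀ t, shift i a t = a (t + i) := fun t => rfl
      have htwo : ∀ p q, 1 ≤ p → p < q → q ≤ m → shift i a p ≠ 0 →
          shift i a q ≠ 0 → False := by
        intro p q h1 h2 h3 h4 h5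
        have := dep_two _ _ p q h1 h2 h3 h4 h5
        omega
      have h6 : i + m ≤ e + s + 1 := by
        by_contra hc
        refine htwo (m - 1) m (by omega) (by omega) le_rfl ?_ ?_
        · rw [hsh]
          exact hn0 _ (by omega)
        · rw [hsh]
          exact hn0 _ (by omega)
      rcases Nat.lt_or_ge e 1 with he0 | he1
      · have he' : e = 0 := by omega
        subst he'
        have h7 : s + 1 ≤ i + m := by
          by_contra hc
          have h8 : dep m (shift i a) = 0 := by
            apply dep_eq_zero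
            intro t h1 h2
            rw [hsh]
            exact hm0 _ (by omega) (by omega)
          omega
        exact ⟨m - 1, by omega, by omega, by omega, by omega⟩
      · have he' : e = 1 := by omega
        subst he'
        rcases Nat.eq_zero_or_pos i with h7 | h7
        · exfalso
          subst h7
          apply hf0
          rw [I_loop M m (shift 0 a) hm1, map_zero]
          change a (0 + 0) = a (m + 1 + 0)
          rw [hm0 (m + 1 + 0) (by omega) (by omega)]
          exact gseq_zero _ _ _ _
        · have h8 : s + 2 ≤ i + m := by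
            by_contra hc
            have h9 : dep m (shift i a) = 0 := by
              apply dep_eq_zero
              intro t h1 h2
              rw [hsh]
              exact hm0 _ (by omega) (by omega)
            omega
          exact ⟨m - 1, by omega, by omega, by omega, by omega⟩

/-! ### the symbols -/

/-- the symbol of `I(0; x^e, 0^s, y_1, ..., y_{d + 1 - e}; y_{d + 2 - e})` -/
noncomputable def sym (x : F) : ℕ → ℕ → ℕ → (ℕ → F) → List (C →ₗ[ℚ] ℚ) → ℚ
  | _, 0, _, _, [] => 0
  | e, 0, s, y, (f :: _) => f (M.I (s + 1) (gseq e s x y))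
  | _, (_ + 1), _, _, [] => 0
  | e, (d + 1), s, y, (f :: l) => ∑ r ∈ Finset.Ico 1 s,
      f (M.I (s - r + 1) (gseq e (s - r) x (fun j => y (j + (d + 1))))) * sym x 0 d r y l

theorem sym_zero (x : F) (e s : ℕ) (y : ℕ → F) (f : C →ₗ[ℚ] ℚ) (l : List (C →ₗ[ℚ] ℚ)) :
    sym M x e 0 s y (f :: l) = f (M.I (s + 1) (gseq e s x y)) := by
  rw [sym]

theorem sym_succ (x : F) (e d s : ℕ) (y : ℕ → F) (f : C →ₗ[ℚ] ℚ) (l : List (C →ₗ[ℚ] ℚ)) :
    sym M x e (d + 1) s y (f :: l) = ∑ r ∈ Finset.Ico 1 s,
      f (M.I (s - r + 1) (gseq e (s - r) x (fun j => y (j + (d + 1))))) * sym M x 0 d r y l := by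
  rw [sym]

theorem sym_last (x : F) (f : C →ₗ[ℚ] ℚ) (d : ℕ) : ∀ (e s : ℕ) (y : ℕ → F)
    (l : List (C →ₗ[ℚ] ℚ)), l.length = d + 1 →
    sym M x e (d + 1) s y (l ++ [f]) = ∑ r ∈ Finset.Ico 1 s,
      f (M.I (r + 1) (gseq 0 r x y)) * sym M x e d (s - r) (fun j => y (j + 1)) l := by
  induction d with
  | zero =>
    intro e s y l hl
    obtain ⟨g, rfl⟩ := List.length_eq_one_iff.1 hl
    change sym M x e (0 + 1) s y (g :: [f]) = _
    rw [sym_succ]
    refine Finset.sum_congr rfl fun r hr => ?_
    rw [sym_zero, sym_zero, mul_comm]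
  | succ d ih =>
    intro e s y l hl
    cases l with
    | nil => exact absurd hl (by simp)
    | cons g l =>
      have hl' : l.length = d + 1 := by
        rw [List.length_cons] at hl
        omega
      rw [List.cons_append, sym_succ]
      have h1 : ∀ r ∈ Finset.Ico 1 s,
          g (M.I (s - r + 1) (gseq e (s - r) x (fun j => y (j + (d + 1 + 1))))) *
            sym M x 0 (d + 1) r y (l ++ [f]) =
          ∑ r' ∈ Finset.Ico 1 r,
            g (M.I (s - r + 1) (gseq e (s - r) x (fun j => y (j + (d + 1 + 1))))) *
            (f (M.I (r' + 1) (gseq 0 r' x y)) *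
              sym M x 0 d (r - r') (fun j => y (j + 1)) l) := by
        intro r _
        rw [ih 0 r y l hl', Finset.mul_sum]
      rw [Finset.sum_congr rfl h1, sum_reindex s (fun r r' =>
        g (M.I (s - r + 1) (gseq e (s - r) x (fun j => y (j + (d + 1 + 1))))) *
            (f (M.I (r' + 1) (gseq 0 r' x y)) *
              sym M x 0 d (r - r') (fun j => y (j + 1)) l))]
      refine Finset.sum_congr rfl fun r' _ => ?_
      rw [sym_succ, Finset.mul_sum]
      refine Finset.sum_congr rfl fun q _ => ?_
      have h2 : r' + q - r' = q := by omega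
      have h3 : s - (r' + q) = s - r' - q := by omega
      have h4 : (fun j => (fun j => y (j + 1)) (j + (d + 1))) = (fun j => y (j + (d + 1 + 1))) :=
        rfl
      rw [h2, h3, h4]
      ring

theorem rn_sym (x : F) (hx : x ≠ 0) (d : ℕ) : ∀ (e s : ℕ) (_ : e ≤ 1) (y : ℕ → F)
    (_ : ∀ j, y j ≠ 0) (l : List (C →ₗ[ℚ] ℚ)), NL M.toLieCoalg (d + 1) l →
    rn M.toLieCoalg l (M.I (s + (d + 1)) (gseq e s x y)) = dyn l (sym M x e d s y) := by
  induction d with
  | zero =>
    intro e s _ y _ l hl
    obtain ⟨f, l', rfl, hf, hl'⟩ := NL_exists M.toLieCoalg hl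
    have h0 : l' = [] := List.length_eq_zero_iff.1 hl'.1
    subst h0
    change _ = sym M x e 0 s y [f]
    rw [sym_zero]
    rfl
  | succ d ih =>
    intro e s he y hy l hl
    obtain ⟨f, l', rfl, hf, hl'⟩ := NL_exists M.toLieCoalg hl
    have h1 := rn_G M e s d he x hx y hy f l' hf hl'
    have h2 : s + (d + 1 + 1) = s + d + 2 := by omega
    rw [h2, h1, dyn_cons f l' (NL_ne_nil M.toLieCoalg hl')]
    congr 1
    · have h3 : ∀ r ∈ Finset.Ico 1 s,
          f (M.I (s - r + 1) (gseq e (s - r) x (fun j => y (j + (d + 1))))) *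
          rn M.toLieCoalg l' (M.I (r + (d + 1)) (gseq 0 r x y)) =
          f (M.I (s - r + 1) (gseq e (s - r) x (fun j => y (j + (d + 1))))) *
          dyn l' (sym M x 0 d r y) := by
        intro r _
        rw [ih 0 r (by omega) y hy l' hl']
      rw [Finset.sum_congr rfl h3, dyn_sum]
      rfl
    · have h3 : ∀ r ∈ Finset.Ico 1 s, f (M.I (r + 1) (gseq 0 r x y)) *
          rn M.toLieCoalg l' (M.I (s - r + (d + 1)) (gseq e (s - r) x (fun j => y (j + 1)))) =
          f (M.I (r + 1) (gseq 0 r x y)) *
          dyn l' (sym M x e d (s - r) (fun j => y (j + 1))) := by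
        intro r _
        rw [ih e (s - r) he (fun j => y (j + 1)) (fun j => hy _) l' hl']
      rw [Finset.sum_congr rfl h3, dyn_sum]
      refine dyn_congr M.toLieCoalg (d + 1) l' _ _ hl' fun w hw => ?_
      rw [sym_last M x f d e s y w hw.1]

end int

end Pool.Agent.V8H63.TD
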