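import Pool.Agent.V8H63.TD.Fin

set_option autoImplicit false

/-!
# The depth conjecture for quadratically closed fields
-/

namespace Pool.Agent.V8H63.TD

open scoped TensorProduct
open Pool.Agent.TH358.MC
open Pool.Agent.TH358.MD hiding mpl mplO I_loop I_mem_D mpl_le pr_d_I rn_G sym sym_zero sym_succ
  sym_last rn_sym I_dep_zero d_J d_K Lin Lin_mem Lin_one Lin_succ eq_of_d eq_J eq_K Lin_frob Lin_frob'
  SM SM_congr sym_SM fs fs_zero_zero fs_zero_pos fs_succ fs_succ_zero fs_cons fs_congr sym_fs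
  sym_one_eq key Scl Tk_le mpl_mono mplO_mono mplO_le dep_le_one mpl_one mplO_one D_le_mplO D_eq
  D_eqO D_eq_ratFunc

section words

variable {C : Type} [AddCommGroup C] [Module ℚ C]

theorem consf_add_left (u v : C) (Φ : List (C →ₗ[ℚ] ℚ) → ℚ) :
    consf (u + v) Φ = consf u Φ + consf v Φ := by
  funext l
  cases l with
  | nil => change (0 : ℚ) = 0 + 0; rw [add_zero]
  | cons f l => rw [Pi.add_apply, consf_cons, consf_cons, consf_cons, map_add, add_mul]

/-- `u ⊗ Φ`, bilinear -/
noncomputable def consL : C →ₗ[ℚ] (List (C →ₗ[ℚ] ℚ) → ℚ) →ₗ[ℚ] (List (C →ₗ[ℚ] ℚ) → ℚ) where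
  toFun u := consf u
  map_add' u v := LinearMap.ext fun Φ => consf_add_left u v Φ
  map_smul' r u := LinearMap.ext fun Φ => consf_smul_left r u Φ

theorem consL_apply (u : C) (Φ : List (C →ₗ[ℚ] ℚ) → ℚ) : consL u Φ = consf u Φ := rfl

end words

section int

variable {F : Type} [Field F] {C : Type} [AddCommGroup C] [Module ℚ C] (M : MotivicIt C F)

/-- the points `y` with `y ^ (2 ^ σ) = w` -/
def pts (sq : F → F) : ℕ → F → List F
  | 0, w => [w]
  | (σ + 1), w => pts sq σ (sq w) ++ pts sq σ (-(sq w))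

variable (sq : F → F) (hsq : ∀ x, sq x * sq x = x)

include hsq

theorem sq_ne {w : F} (hw : w ≠ 0) : sq w ≠ 0 := by
  intro h
  apply hw
  rw [← hsq w, h, mul_zero]

theorem pts_ne (σ : ℕ) : ∀ w : F, w ≠ 0 → ∀ y ∈ pts sq σ w, y ≠ 0 := by
  induction σ with
  | zero =>
    intro w hw y hy
    rw [pts, List.mem_singleton] at hy
    rw [hy]
    exact hw
  | succ σ ih =>
    intro w hw y hy
    rw [pts, List.mem_append] at hy
    rcases hy with hy | hy
    · exact ih _ (sq_ne sq hsq hw) y hy
    · exact ih _ (neg_ne_zero.2 (sq_ne sq hsq hw)) y hy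

theorem pts_sum (m : ℕ) (hm : 2 ≤ m) (σ : ℕ) : ∀ w : F, w ≠ 0 →
    (((2 : ℚ) ^ (m - 1)) ^ σ) • ((pts sq σ w).map (Lin M m)).sum = Lin M m w := by
  induction σ with
  | zero =>
    intro w _
    rw [pts, List.map_singleton, List.sum_singleton, pow_zero, one_smul]
  | succ σ ih =>
    intro w hw
    rw [pts, List.map_append, List.sum_append, pow_succ', mul_smul, smul_add,
      ih _ (sq_ne sq hsq hw), ih _ (neg_ne_zero.2 (sq_ne sq hsq hw)),
      ← Lin_two M m hm _ (sq_ne sq hsq hw), hsq]

theorem iso2 {V : Type} [AddCommGroup V] [Module ℚ V] (S : Submodule ℚ V) (T : Finset ℕ) (s : ℕ)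
    (hT : ∀ r ∈ T, r < s) (A : ℕ → C →ₗ[ℚ] V)
    (h : ∀ y : F, y ≠ 0 → ∑ r ∈ T, A r (Lin M (s - r + 1) y) ∈ S) (w : F) (hw : w ≠ 0) :
    ∀ r ∈ T, A r (Lin M (s - r + 1) w) ∈ S := by
  refine isolate S 2 le_rfl T (fun r => r) (fun _ _ _ _ h => h)
    (fun r => A r (Lin M (s - r + 1) w)) (fun σ => ?_)
  have h1 : ∀ l : List F, (∀ y ∈ l, y ≠ 0) →
      ∑ r ∈ T, A r ((l.map (Lin M (s - r + 1))).sum) ∈ S := by
    intro l
    induction l with
    | nil =>
      intro _
      simp
    | cons y l ih =>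
      intro hl
      have e : ∑ r ∈ T, A r (((y :: l).map (Lin M (s - r + 1))).sum) =
          ∑ r ∈ T, A r (Lin M (s - r + 1) y) + ∑ r ∈ T, A r ((l.map (Lin M (s - r + 1))).sum) := by
        rw [← Finset.sum_add_distrib]
        refine Finset.sum_congr rfl fun r _ => ?_
        rw [List.map_cons, List.sum_cons, map_add]
      rw [e]
      exact S.add_mem (h y (hl y List.mem_cons_self))
        (ih fun z hz => hl z (List.mem_cons_of_mem _ hz))
  have h2 := S.smul_mem (((2 : ℚ) ^ s) ^ σ) (h1 (pts sq σ w) (pts_ne sq hsq σ w hw))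
  rw [Finset.smul_sum] at h2
  convert h2 using 1
  refine Finset.sum_congr rfl fun r hr => ?_
  have hr' := hT r hr
  have h3 := pts_sum M sq hsq (s - r + 1) (by omega) σ w hw
  rw [show s - r + 1 - 1 = s - r by omega] at h3
  change ((((2 : ℕ) : ℚ) ^ r) ^ σ) • A r (Lin M (s - r + 1) w) = _
  conv_lhs => rw [← h3]
  rw [map_smul, smul_smul]
  congr 1
  rw [← mul_pow, Nat.cast_ofNat, ← pow_add]
  congr 3
  omega

theorem keyS (d t : ℕ) : ∀ j, j + t = d + 1 →
    ∀ bs : List C, bs.length = t + 1 →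
    (∀ b ∈ bs, ∃ (m : ℕ) (w : F), 2 ≤ m ∧ w ≠ 0 ∧ b = Lin M m w) →
    ∀ (r : ℕ) (z : ℕ → F), (∀ i, z i ≠ 0) → preL bs (fs M z j r) ∈ SM M d := by
  induction t with
  | zero =>
    intro j hj bs hbs hb r z hz
    have hj' : j = d + 1 := by omega
    subst hj'
    obtain ⟨b, rfl⟩ := List.length_eq_one_iff.1 hbs
    obtain ⟨m, w, hm, hw, rfl⟩ := hb b (List.mem_singleton.2 rfl)
    change consf (Lin M m w) (fs M z (d + 1) r) ∈ SM M d
    rcases Nat.eq_zero_or_pos r with hr | hr
    · subst hr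
      rw [fs_succ_zero, map_zero]
      exact Submodule.zero_mem _
    · set s := r + m - 1 with hs
      have h1 := iso2 M sq hsq (SM M d) (Finset.Ico 1 s) s
        (fun r hr => (Finset.mem_Ico.1 hr).2)
        (fun r' => - (consL (C := C)).flip (fs M z (d + 1) r')) (by
        intro v hv
        set y : ℕ → F := fun i => ∏ i' ∈ Finset.Ico i (d + 2), (z i')⁻¹ with hy
        have hy0 : ∀ i, y i ≠ 0 := fun i =>
          Finset.prod_ne_zero_iff.2 fun i' _ => inv_ne_zero (hz i')
        have hy1 : y (d + 2) = 1 := by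
          rw [hy]
          change ∏ i' ∈ Finset.Ico (d + 2) (d + 2), (z i')⁻¹ = 1
          rw [Finset.Ico_self, Finset.prod_empty]
        have hyz : ∀ j, 1 ≤ j → j ≤ d + 1 → y (j + 1) / y j = z j := by
          intro j _ h2
          have h3 : y j = (z j)⁻¹ * y (j + 1) := Finset.prod_eq_prod_Ico_succ_bot (by omega) _
          rw [h3, div_eq_iff (mul_ne_zero (inv_ne_zero (hz j)) (hy0 _)), ← mul_assoc,
            mul_inv_cancel₀ (hz j), one_mul]
        have hx : v⁻¹ ≠ 0 := inv_ne_zero hv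
        refine SM_congr M d _ _ (sym_SM M d s _ hx y hy0 hy1) fun l hl => ?_
        rw [sym_one_eq M _ hx y z hy0 d s hyz l hl.1, Finset.sum_apply]
        refine Finset.sum_congr rfl fun r' _ => ?_
        rw [hy1, one_div, inv_inv]
        rfl) w hw
      have h2 := h1 r (Finset.mem_Ico.2 ⟨hr, by omega⟩)
      have h3 : s - r + 1 = m := by omega
      change - consf (Lin M (s - r + 1) w) (fs M z (d + 1) r) ∈ SM M d at h2
      rw [h3] at h2
      exact (Submodule.neg_mem_iff _).1 h2
  | succ t ih =>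
    intro j hj bs hbs hb r z hz
    rcases List.eq_nil_or_concat bs with h0 | ⟨bs', b, h0⟩
    · rw [h0] at hbs
      exact absurd hbs (by simp)
    · rw [List.concat_eq_append] at h0
      subst h0
      have hbs' : bs'.length = t + 1 := by
        rw [List.length_append] at hbs
        change bs'.length + 1 = _ at hbs
        omega
      obtain ⟨m, w, hm, hw, rfl⟩ := hb b (List.mem_append_right _ (List.mem_singleton.2 rfl))
      rw [preL_append]
      set R := r + m - 1 with hR
      have h1 := iso2 M sq hsq (SM M d) (Finset.range R) R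
        (fun r hr => Finset.mem_range.1 hr)
        (fun r' => ((-1 : ℚ) ^ (R - r' + 1)) • (preL bs' ∘ₗ (consL (C := C)).flip (fs M z j r')))
        (by
        intro v hv
        have h2 := ih (j + 1) (by omega) bs' hbs'
          (fun b hb' => hb b (List.mem_append_left _ hb')) R
          (Function.update z (j + 1) v) (by
            intro i
            by_cases hi : i = j + 1
            · subst hi
              rw [Function.update_self]
              exact hv
            · rw [Function.update_of_ne hi]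
              exact hz i)
        rw [fs_succ, map_sum] at h2
        convert h2 using 1
        refine Finset.sum_congr rfl fun r' _ => ?_
        rw [Function.update_self, fs_congr M (Function.update z (j + 1) v) z j r'
            (fun i _ h2 => Function.update_of_ne (by omega) _ _), map_smul]
        rfl) w hw
      have h2 := h1 r (Finset.mem_range.2 (by omega))
      have h3 : R - r + 1 = m := by omega
      change ((-1 : ℚ) ^ (R - r + 1)) • preL bs' (consf (Lin M (R - r + 1) w) (fs M z j r)) ∈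
        SM M d at h2
      rw [h3] at h2
      have h4 : preL bs' (consf (Lin M m w) (fs M z j r)) = ((-1 : ℚ) ^ m) • (((-1 : ℚ) ^ m) •
          preL bs' (consf (Lin M m w) (fs M z j r))) := by
        rw [smul_smul, ← mul_pow, neg_one_mul, neg_neg, one_pow, one_smul]
      rw [h4]
      exact Submodule.smul_mem _ _ h2

theorem Tk_leS (d : ℕ) : Tk (Scl M) (d + 2) ≤ SM M d := by
  classical
  rw [Tk, Submodule.span_le]
  rintro _ ⟨b, hb, hb', rfl⟩
  by_cases h : ∀ c ∈ b, ∃ (m : ℕ) (w : F), 2 ≤ m ∧ w ≠ 0 ∧ c = Lin M m w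
  · have h1 := keyS M sq hsq d (d + 1) 0 (by omega) b hb h 0 (fun _ => 1) (fun _ => one_ne_zero)
    rw [fs_zero_zero, preL_ev] at h1
    exact h1
  · push Not at h
    obtain ⟨c, hc, hc'⟩ := h
    obtain ⟨n, x, hn, hx, rfl⟩ := hb' c hc
    have h1 : n = 1 := by
      by_contra h2
      exact hc' n x (by omega) hx rfl
    subst h1
    refine SM_congr M d 0 _ (Submodule.zero_mem _) fun l hl => ?_
    change (0 : ℚ) = ev l b
    rw [ev_zero M.toLieCoalg _ (Lin_mem M 1 le_rfl x) b hc l hl.2]

/-- for quadratically closed fields the depth one case implies the general case -/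
theorem D_le_mplOS (h1 : M.D 1 = mpl M 1) (k : ℕ) (hk : 1 ≤ k) : M.D k ≤ mplO M k := by
  induction k, hk using Nat.le_induction with
  | base => rw [h1, mpl_one, mplO_one]
  | succ k hk ih =>
    obtain ⟨d, rfl⟩ : ∃ d, k = d + 1 := ⟨k - 1, by omega⟩
    intro a ha
    have hS : M.D 1 = Submodule.span ℚ (Scl M) := by rw [h1, mpl_one]
    obtain ⟨Φ, hΦ, hΦ'⟩ := symbol M.toLieCoalg (Scl M) hS (d + 1) a ha
    obtain ⟨m, hm, hm'⟩ := Tk_leS M sq hsq d hΦ
    have h2 : m - ((d : ℚ) + 2) • a ∈ M.D (d + 1) := by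
      rw [char]
      intro l hl
      rw [map_sub, map_smul, hm' l hl, dyn_congr M.toLieCoalg (d + 2) l Φ
        (fun w => rn M.toLieCoalg w a) hl (fun w hw => (hΦ' w hw).symm),
        dynkin' M.toLieCoalg l (NL_ne_nil M.toLieCoalg hl) a, hl.1, smul_eq_mul]
      push_cast
      ring
    have h3 : m - ((d : ℚ) + 2) • a ∈ mplO M (d + 2) := mplO_mono M _ _ (by omega) (ih h2)
    have h4 : ((d : ℚ) + 2) • a ∈ mplO M (d + 2) := by
      have h5 : ((d : ℚ) + 2) • a = m - (m - ((d : ℚ) + 2) • a) := by rw [sub_sub_cancel]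
      rw [h5]
      exact Submodule.sub_mem _ hm h3
    have h6 : ((d : ℚ) + 2) ≠ 0 := by positivity
    have h7 : a = ((d : ℚ) + 2)⁻¹ • (((d : ℚ) + 2) • a) := by
      rw [smul_smul, inv_mul_cancel₀ h6, one_smul]
    rw [h7]
    exact Submodule.smul_mem _ _ h4

end int

/-- quadratically closed fields -/
theorem D_eqS {F : Type} [Field F] {C : Type} [AddCommGroup C] [Module ℚ C] (M : MotivicIt C F)
    (hF : ∀ x : F, ∃ y, y * y = x) (h1 : M.D 1 = mpl M 1) (k : ℕ) (hk : 1 ≤ k) :
    M.D k = mpl M k ∧ M.D k = mplO M k := by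
  choose sq hsq using hF
  have h := D_le_mplOS M sq hsq h1 k hk
  exact ⟨le_antisymm (h.trans (mplO_le M k)) (mpl_le M k),
    le_antisymm h ((mplO_le M k).trans (mpl_le M k))⟩

end Pool.Agent.V8H63.TD
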