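import Pool.Agent.V8H63.TD.Par

set_option autoImplicit false

/-!
# The top depth part, continued
-/

namespace Pool.Agent.V8H63.TD

open scoped TensorProduct
open Pool.Agent.TH358.MC
open Pool.Agent.TH358.MD hiding mpl mplO I_loop I_mem_D mpl_le pr_d_I rn_G sym sym_zero sym_succ
  sym_last rn_sym I_dep_zero d_J d_K Lin Lin_mem Lin_one Lin_succ eq_of_d eq_J eq_K Lin_frob Lin_frob'
  SM SM_congr sym_SM fs fs_zero_zero fs_zero_pos fs_succ fs_succ_zero fs_cons fs_congr sym_fs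
  sym_one_eq key Scl Tk_le mpl_mono mplO_mono mplO_le dep_le_one mpl_one mplO_one D_le_mplO D_eq
  D_eqO D_eq_ratFunc
open Y775.W3 (W_le_D_half graded_form)

section int

variable {F : Type} [Field F] {C : Type} [AddCommGroup C] [Module ℚ C] (M : MotivicIt C F)

/-- `(Li_2(x), - Li_3(x))` -/
noncomputable def pp (x : F) : C × C := (Lin M 2 x, - Lin M 3 x)

/-- `(Li_2(x), Li_3(x))` -/
noncomputable def ph (x : F) : C × C := (Lin M 2 x, Lin M 3 x)

theorem pp_inv (x : F) (hx : x ≠ 0) : pp M x + pp M x⁻¹ = (0, (-2 : ℚ) • Lin M 3 x) := by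
  have h2 := Lin_inv M 2 le_rfl x hx
  have h3 := Lin_inv M 3 (by norm_num) x hx
  have e2 : ((-1 : ℚ) ^ (2 - 1)) = -1 := by norm_num
  have e3 : ((-1 : ℚ) ^ (3 - 1)) = 1 := by norm_num
  rw [e2, neg_one_smul] at h2
  rw [e3, one_smul] at h3
  unfold pp
  rw [h2, h3, Prod.mk_add_mk, add_neg_cancel, neg_smul, two_smul, neg_add]

theorem ph_inv (x : F) (hx : x ≠ 0) : ph M x + ph M x⁻¹ = (0, (2 : ℚ) • Lin M 3 x) := by
  have h2 := Lin_inv M 2 le_rfl x hx
  have h3 := Lin_inv M 3 (by norm_num) x hx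
  have e2 : ((-1 : ℚ) ^ (2 - 1)) = -1 := by norm_num
  have e3 : ((-1 : ℚ) ^ (3 - 1)) = 1 := by norm_num
  rw [e2, neg_one_smul] at h2
  rw [e3, one_smul] at h3
  unfold ph
  rw [h2, h3, Prod.mk_add_mk, add_neg_cancel, two_smul]

/-- the list of the pairs `(Li_2(z_j), - Li_3(z_j)), ..., (Li_2(z_1), - Li_3(z_1))` -/
noncomputable def pl (z : ℕ → F) : ℕ → List (C × C)
  | 0 => []
  | (j + 1) => pp M (z (j + 1)) :: pl z j

theorem pl_succ (z : ℕ → F) (j : ℕ) : pl M z (j + 1) = pp M (z (j + 1)) :: pl M z j := rfl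

theorem pl_congr (z z' : ℕ → F) (j : ℕ) (h : ∀ i, i ≤ j → z i = z' i) : pl M z j = pl M z' j := by
  induction j with
  | zero => rfl
  | succ j ih => rw [pl_succ, pl_succ, ih (fun i hi => h i (by omega)), h (j + 1) le_rfl]

theorem exists_pl (xs : List F) (hx : ∀ x ∈ xs, x ≠ 0) : ∃ z : ℕ → F, (∀ i, z i ≠ 0) ∧
    pl M z xs.length = xs.map (pp M) := by
  induction xs with
  | nil => exact ⟨fun _ => 1, fun _ => one_ne_zero, rfl⟩
  | cons x xs ih =>
    obtain ⟨z, hz, h⟩ := ih (fun y hy => hx y (List.mem_cons_of_mem _ hy))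
    refine ⟨Function.update z (xs.length + 1) x, fun i => ?_, ?_⟩
    · by_cases hi : i = xs.length + 1
      · subst hi
        rw [Function.update_self]
        exact hx x List.mem_cons_self
      · rw [Function.update_of_ne hi]
        exact hz i
    · rw [List.length_cons, pl_succ, Function.update_self, List.map_cons,
        pl_congr M _ z xs.length (fun i hi => Function.update_of_ne (by omega) _ _), h]

theorem fs_lt (z : ℕ → F) (j : ℕ) : ∀ r, r < j → fs M z j r = 0 := by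
  induction j with
  | zero => intro r hr; omega
  | succ j ih =>
    intro r hr
    rw [fs_succ]
    refine Finset.sum_eq_zero fun r' hr' => ?_
    rw [Finset.mem_range] at hr'
    rw [ih r' (by omega), map_zero, smul_zero]

theorem fs_q2 (z : ℕ → F) (j : ℕ) : fs M z j j = q2 (pl M z j) := by
  induction j with
  | zero => exact fs_zero_zero M z
  | succ j ih =>
    rw [fs_succ, Finset.sum_range_succ, Finset.sum_eq_zero, zero_add, pl_succ, q2_cons, ← ih]
    · have h1 : j + 1 - j + 1 = 2 := by omega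
      rw [h1]
      norm_num
      rfl
    · intro r hr
      rw [Finset.mem_range] at hr
      rw [fs_lt M z j r hr, map_zero, smul_zero]

theorem fs_q3 (z : ℕ → F) (j : ℕ) : fs M z j (j + 1) = q3 (pl M z j) := by
  induction j with
  | zero => exact fs_zero_pos M z 1 one_ne_zero
  | succ j ih =>
    rw [fs_succ, Finset.sum_range_succ, Finset.sum_range_succ, Finset.sum_eq_zero, zero_add,
      pl_succ, q3_cons, ← ih, ← fs_q2]
    · have h1 : j + 1 + 1 - j + 1 = 3 := by omega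
      have h2 : j + 1 + 1 - (j + 1) + 1 = 2 := by omega
      have e3 : ((-1 : ℚ) ^ 3) = -1 := by norm_num
      have e2 : ((-1 : ℚ) ^ 2) = 1 := by norm_num
      rw [h1, h2, e3, e2, one_smul, neg_one_smul, ← consL_apply, ← consL_apply]
      congr 1
      unfold pp
      rw [map_neg, LinearMap.neg_apply]
    · intro r hr
      rw [Finset.mem_range] at hr
      rw [fs_lt M z j r hr, map_zero, smul_zero]

/-- the symbols of the `Li_{m,1,...,1}` -/
theorem sym_mem (d s : ℕ) (w : F) (hw : w ≠ 0) (z : ℕ → F) (hz : ∀ i, z i ≠ 0) :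
    ∑ r ∈ Finset.Ico 1 s, (- consf (Lin M (s - r + 1) w) (fs M z (d + 1) r)) ∈ SM M d := by
  set y : ℕ → F := fun i => ∏ i' ∈ Finset.Ico i (d + 2), (z i')⁻¹ with hy
  have hy0 : ∀ i, y i ≠ 0 := fun i =>
    Finset.prod_ne_zero_iff.2 fun i' _ => inv_ne_zero (hz i')
  have hy1 : y (d + 2) = 1 := by
    rw [hy]
    change ∏ i' ∈ Finset.Ico (d + 2) (d + 2), (z i')⁻¹ = 1
    rw [Finset.Ico_self, Finset.prod_empty]
  have hyz : ∀ j, 1 ≤ j → j ≤ d + 1 → y (j + 1) / y j = z j := by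
    intro j _ h2
    have h3 : y j = (z j)⁻¹ * y (j + 1) := Finset.prod_eq_prod_Ico_succ_bot (by omega) _
    rw [h3, div_eq_iff (mul_ne_zero (inv_ne_zero (hz j)) (hy0 _)), ← mul_assoc,
      mul_inv_cancel₀ (hz j), one_mul]
  have hx : w⁻¹ ≠ 0 := inv_ne_zero hw
  refine SM_congr M d _ _ (sym_SM M d s _ hx y hy0 hy1) fun l hl => ?_
  rw [sym_one_eq M _ hx y z hy0 d s hyz l hl.1, Finset.sum_apply]
  refine Finset.sum_congr rfl fun r' _ => ?_
  rw [hy1, one_div, inv_inv]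

theorem q2_mem (d : ℕ) (w : F) (hw : w ≠ 0) (z : ℕ → F) (hz : ∀ i, z i ≠ 0) :
    q2 (ph M w :: pl M z (d + 1)) ∈ SM M d := by
  have h := sym_mem M d (d + 2) w hw z hz
  rw [Finset.sum_eq_single (d + 1)] at h
  · have h1 : d + 2 - (d + 1) + 1 = 2 := by omega
    rw [h1, fs_q2] at h
    exact (Submodule.neg_mem_iff _).1 h
  · intro r hr hne
    rw [Finset.mem_Ico] at hr
    rw [fs_lt M z (d + 1) r (by omega), map_zero, neg_zero]
  · intro hn
    exact absurd (Finset.mem_Ico.2 ⟨by omega, by omega⟩) hn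

theorem q3_mem (d : ℕ) (w : F) (hw : w ≠ 0) (z : ℕ → F) (hz : ∀ i, z i ≠ 0) :
    q3 (ph M w :: pl M z (d + 1)) ∈ SM M d := by
  have h := sym_mem M d (d + 3) w hw z hz
  rw [Finset.sum_Ico_succ_top (by omega : 1 ≤ d + 2),
    Finset.sum_Ico_succ_top (by omega : 1 ≤ d + 1), Finset.sum_eq_zero, zero_add] at h
  · have h1 : d + 3 - (d + 1) + 1 = 3 := by omega
    have h2 : d + 3 - (d + 2) + 1 = 2 := by omega
    rw [h1, h2, fs_q2, fs_q3, ← neg_add] at h
    exact (Submodule.neg_mem_iff _).1 h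
  · intro r hr
    rw [Finset.mem_Ico] at hr
    rw [fs_lt M z (d + 1) r (by omega), map_zero, neg_zero]

theorem q2_mem' (d : ℕ) (w : F) (hw : w ≠ 0) (xs : List F) (hx : ∀ x ∈ xs, x ≠ 0)
    (hl : xs.length = d + 1) : q2 (ph M w :: xs.map (pp M)) ∈ SM M d := by
  obtain ⟨z, hz, h⟩ := exists_pl M xs hx
  rw [← h, hl]
  exact q2_mem M d w hw z hz

theorem q3_mem' (d : ℕ) (w : F) (hw : w ≠ 0) (xs : List F) (hx : ∀ x ∈ xs, x ≠ 0)
    (hl : xs.length = d + 1) : q3 (ph M w :: xs.map (pp M)) ∈ SM M d := by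
  obtain ⟨z, hz, h⟩ := exists_pl M xs hx
  rw [← h, hl]
  exact q3_mem M d w hw z hz

/-- the dilogarithms, the trilogarithms -/
def Sn (n : ℕ) : Set C := {c | ∃ x : F, x ≠ 0 ∧ c = Lin M n x}

theorem exists_xs (n : ℕ) (b : List C) (hb : ∀ c ∈ b, c ∈ Sn M n) :
    ∃ xs : List F, (∀ x ∈ xs, x ≠ 0) ∧ b = xs.map (Lin M n) := by
  induction b with
  | nil => exact ⟨[], by simp, rfl⟩
  | cons c b ih =>
    obtain ⟨xs, h1, rfl⟩ := ih (fun c hc => hb c (List.mem_cons_of_mem _ hc))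
    obtain ⟨x, hx, rfl⟩ := hb c List.mem_cons_self
    refine ⟨x :: xs, ?_, rfl⟩
    intro y hy
    rcases List.mem_cons.1 hy with h | h
    · rw [h]; exact hx
    · exact h1 y h

theorem pp_fst (xs : List F) : (xs.map (pp M)).map Prod.fst = xs.map (Lin M 2) := by
  rw [List.map_map]
  rfl

theorem ev_smul (b b' : List C) (r : ℚ) (v : C) :
    (fun m : List (C →ₗ[ℚ] ℚ) => ev m (b ++ (r • v) :: b')) =
      r • (fun m : List (C →ₗ[ℚ] ℚ) => ev m (b ++ v :: b')) := by
  induction b with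
  | nil =>
    rw [List.nil_append, List.nil_append, ← consf_ev, ← consf_ev, consf_smul_left]
  | cons c b ih =>
    rw [List.cons_append, List.cons_append, ← consf_ev, ih, map_smul, consf_ev]

theorem Tk_SM (d : ℕ) : Tk (Sn M 2) (d + 2) ≤ SM M d := by
  rw [Tk, Submodule.span_le]
  rintro _ ⟨b, hb, hb', rfl⟩
  obtain ⟨xs, h1, rfl⟩ := exists_xs M 2 b hb'
  rw [List.length_map] at hb
  cases xs with
  | nil => exact absurd hb (by simp)
  | cons x xs =>
    have h := q2_mem' M d x (h1 x List.mem_cons_self) xs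
      (fun y hy => h1 y (List.mem_cons_of_mem _ hy)) (by rw [List.length_cons] at hb; omega)
    rw [q2_ev, List.map_cons, pp_fst] at h
    exact h

theorem Ta_SM (d : ℕ) : Ta (Sn M 2) (Sn M 3) (d + 2) ≤ SM M d := by
  rw [Ta, Submodule.span_le]
  rintro _ ⟨b, v, b', hk, hb, ⟨y, hy, rfl⟩, hb', rfl⟩
  obtain ⟨xs, h1, rfl⟩ := exists_xs M 2 b hb
  obtain ⟨xs', h1', rfl⟩ := exists_xs M 2 b' hb'
  rw [List.length_map, List.length_map] at hk
  have hyi : y⁻¹ ≠ 0 := inv_ne_zero hy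
  cases xs with
  | nil =>
    rw [List.length_nil] at hk
    have h := Submodule.add_mem _ (q3_mem' M d y hy xs' h1' (by omega))
      (q3_mem' M d y⁻¹ hyi xs' h1' (by omega))
    have e := q3_add [] (ph M y) (ph M y⁻¹) (xs'.map (pp M))
    simp only [List.nil_append] at e
    rw [← e, ph_inv M y hy] at h
    have e2 := q3_zero [] ((2 : ℚ) • Lin M 3 y) (xs'.map (pp M))
    simp only [List.nil_append, List.map_nil] at e2
    rw [e2, pp_fst] at h
    have e3 := ev_smul [] (xs'.map (Lin M 2)) 2 (Lin M 3 y)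
    simp only [List.nil_append] at e3
    rw [e3] at h
    simp only [List.map_nil, List.nil_append]
    exact (Submodule.smul_mem_iff _ (two_ne_zero)).1 h
  | cons x xs =>
    rw [List.length_cons] at hk
    have hx := h1 x List.mem_cons_self
    have hxs : ∀ z ∈ xs, z ≠ 0 := fun z hz => h1 z (List.mem_cons_of_mem _ hz)
    have hall : ∀ y : F, y ≠ 0 → ∀ z ∈ xs ++ y :: xs', z ≠ 0 := by
      intro y hy z hz
      rcases List.mem_append.1 hz with h | h
      · exact hxs z h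
      · rcases List.mem_cons.1 h with h | h
        · rw [h]; exact hy
        · exact h1' z h
    have h := Submodule.add_mem _ (q3_mem' M d x hx (xs ++ y :: xs') (hall y hy)
      (by rw [List.length_append, List.length_cons]; omega))
      (q3_mem' M d x hx (xs ++ y⁻¹ :: xs') (hall _ hyi)
      (by rw [List.length_append, List.length_cons]; omega))
    rw [List.map_append, List.map_append, List.map_cons, List.map_cons] at h
    have e := q3_add (ph M x :: xs.map (pp M)) (pp M y) (pp M y⁻¹) (xs'.map (pp M))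
    rw [List.cons_append, List.cons_append, List.cons_append] at e
    rw [← e, pp_inv M y hy] at h
    have e2 := q3_zero (ph M x :: xs.map (pp M)) ((-2 : ℚ) • Lin M 3 y) (xs'.map (pp M))
    rw [List.cons_append] at e2
    rw [e2, List.map_cons, pp_fst, pp_fst, ev_smul] at h
    have h9 := (Submodule.smul_mem_iff _ (by norm_num : (-2 : ℚ) ≠ 0)).1 h
    exact h9

theorem hasSym_top (d : ℕ) (P : Submodule ℚ (List (C →ₗ[ℚ] ℚ) → ℚ)) (hP : P ≤ SM M d) (a : C)
    (ha : HasSym M.toLieCoalg P (d + 2) a) : a ∈ mplO M (d + 2) ⊔ M.D (d + 2 - 1) := by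
  obtain ⟨Φ, hΦ, hΦ'⟩ := ha
  obtain ⟨m, hm, hm'⟩ := hP hΦ
  have h2 : m - ((d : ℚ) + 2) • a ∈ M.D (d + 1) := by
    rw [char]
    intro l hl
    rw [map_sub, map_smul, hm' l hl, dyn_congr M.toLieCoalg (d + 2) l Φ
      (fun w => rn M.toLieCoalg w a) hl (fun w hw => (hΦ' w hw).symm),
      dynkin' M.toLieCoalg l (NL_ne_nil M.toLieCoalg hl) a, hl.1, smul_eq_mul]
    push_cast
    ring
  have h4 : ((d : ℚ) + 2) • a ∈ mplO M (d + 2) ⊔ M.D (d + 2 - 1) := by
    have h5 : ((d : ℚ) + 2) • a = m - (m - ((d : ℚ) + 2) • a) := by rw [sub_sub_cancel]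
    rw [h5]
    exact Submodule.sub_mem _ (Submodule.mem_sup_left hm) (Submodule.mem_sup_right h2)
  have h6 : ((d : ℚ) + 2) ≠ 0 := by positivity
  exact (Submodule.smul_mem_iff _ h6).1 h4

theorem Lis_eq (n : ℕ) (hn : 1 ≤ n) : Lis M n = Submodule.span ℚ (Sn M n) := by
  unfold Lis
  apply le_antisymm
  · rw [Submodule.span_le]
    rintro _ ⟨x, hx, rfl⟩
    rw [li_eq M n hn]
    exact Submodule.neg_mem _ (Submodule.subset_span ⟨x, hx, rfl⟩)
  · rw [Submodule.span_le]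
    rintro _ ⟨x, hx, rfl⟩
    have h : Lin M n x = - M.I n (liSeq n x) := by rw [li_eq M n hn, neg_neg]
    rw [h]
    exact Submodule.neg_mem _ (Submodule.subset_span ⟨x, hx, rfl⟩)

theorem Lis_le (n : ℕ) (hn : 1 ≤ n) : Lis M n ≤ mplO M 1 := by
  rw [Lis_eq M n hn, mplO_one]
  apply Submodule.span_mono
  rintro _ ⟨x, hx, rfl⟩
  exact ⟨n, x, hn, hx, rfl⟩

/-- the top depth part -/
theorem top_all (h2 : M.W 2 ≤ Lis M 2) (r n : ℕ) (hr : 1 ≤ r)
    (h3 : n = 2 * r + 1 → M.W 3 ≤ Lis M 3) (hn : n ≤ 2 * r + 1) :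
    M.W n ≤ mplO M r ⊔ M.D (r - 1) := by
  rcases Nat.lt_or_ge n (2 * r) with h | h
  · exact (W_le_D_half M.toLieCoalg (r - 1) n (by omega)).trans le_sup_right
  obtain rfl | h1 : r = 1 ∨ 2 ≤ r := by omega
  · obtain h4 | h4 : n = 2 ∨ n = 3 := by omega
    · rw [h4]
      exact (h2.trans (Lis_le M 2 (by norm_num))).trans le_sup_left
    · rw [h4]
      exact ((h3 h4).trans (Lis_le M 3 (by norm_num))).trans le_sup_left
  obtain ⟨d, rfl⟩ : ∃ d, r = d + 2 := ⟨r - 2, by omega⟩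
  rw [Lis_eq M 2 (by norm_num)] at h2
  obtain h4 | h4 : n = 2 * (d + 2) ∨ n = 2 * (d + 2) + 1 := by omega
  · subst h4
    intro a ha
    exact hasSym_top M d _ (Tk_SM M d) a (sym_even M.toLieCoalg _ h2 (d + 1) a ha)
  · have h3' := h3 h4
    rw [Lis_eq M 3 (by norm_num)] at h3'
    subst h4
    intro a ha
    exact hasSym_top M d _ (Ta_SM M d) a (sym_odd M.toLieCoalg _ _ h2 h3' (d + 1) a ha)

theorem mpl_proj (n r : ℕ) (π : C →ₗ[ℚ] C) (h1 : ∀ a ∈ M.W n, π a = a)
    (h2 : ∀ i, i ≠ n → ∀ a ∈ M.W i, π a = 0) : ∀ a ∈ mpl M r, π a ∈ mpl M r := by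
  have h : mpl M r ≤ (mpl M r).comap π := by
    conv_lhs => rw [mpl]
    rw [Submodule.span_le]
    rintro _ ⟨m, a, g1, g2, g3, g4, g5, rfl⟩
    change π (M.I m a) ∈ mpl M r
    by_cases hm : m = n
    · subst hm
      rw [h1 _ (M.I_mem m a g1)]
      exact Submodule.subset_span ⟨m, a, g1, g2, g3, g4, g5, rfl⟩
    · rw [h2 m hm _ (M.I_mem m a g1)]
      exact Submodule.zero_mem _
  exact h

theorem mplO_proj (n r : ℕ) (π : C →ₗ[ℚ] C) (h1 : ∀ a ∈ M.W n, π a = a)
    (h2 : ∀ i, i ≠ n → ∀ a ∈ M.W i, π a = 0) : ∀ a ∈ mplO M r, π a ∈ mplO M r := by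
  have h : mplO M r ≤ (mplO M r).comap π := by
    conv_lhs => rw [mplO]
    rw [Submodule.span_le]
    rintro _ ⟨m, a, g1, g2, g3, g4, g5, g6, rfl⟩
    change π (M.I m a) ∈ mplO M r
    by_cases hm : m = n
    · subst hm
      rw [h1 _ (M.I_mem m a g1)]
      exact Submodule.subset_span ⟨m, a, g1, g2, g3, g4, g5, g6, rfl⟩
    · rw [h2 m hm _ (M.I_mem m a g1)]
      exact Submodule.zero_mem _
  exact h

theorem graded_two (r n : ℕ) (h2 : M.W n ≤ mplO M r ⊔ M.D (r - 1)) :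
    M.D r ⊓ M.W n = (mpl M r ⊓ M.W n) ⊔ (M.D (r - 1) ⊓ M.W n) ∧
    M.D r ⊓ M.W n = (mplO M r ⊓ M.W n) ⊔ (M.D (r - 1) ⊓ M.W n) :=
  ⟨graded_form M.toLieCoalg n r (r - 1) (Nat.sub_le r 1) (mpl M r) (mpl_le M r)
      (mpl_proj M n r) (h2.trans (sup_le_sup_right (mplO_le M r) _)),
    graded_form M.toLieCoalg n r (r - 1) (Nat.sub_le r 1) (mplO M r)
      ((mplO_le M r).trans (mpl_le M r)) (mplO_proj M n r) h2⟩

end int

/-! ### the rational numbers -/

section rat

variable {C : Type} [AddCommGroup C] [Module ℚ C] (M : MotivicItRat C)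

/-- the associated data of the starting files -/
noncomputable def toRat' : Y775.W3.MotivicRat C where
  toLieCoalg := M.toLieCoalg
  φ := M.φ
  φ_inj := M.φ_inj
  φ_range := M.φ_range
  Li := Lin M.toMotivicIt
  Li_mem n x hn _ := Lin_mem M.toMotivicIt n hn x
  Li_one x hx := Lin_one M.toMotivicIt x hx
  Li_succ n x hn _ := Lin_succ M.toMotivicIt n hn x
  ext_even := M.ext_even
  ext_odd n a h1 h2 h3 h4 := by
    obtain ⟨q, hq⟩ := M.ext_odd n a h1 h2 h3 h4
    refine ⟨-q, ?_⟩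
    rw [hq, li_eq M.toMotivicIt n (by omega), smul_neg, neg_smul]

theorem rat_low (n : ℕ) (h1 : 1 ≤ n) (h3 : n ≤ 3) : M.W n ≤ Lis M.toMotivicIt n := by
  rw [Lis_eq M.toMotivicIt n h1]
  have h := (Y775.W3.weights_rat (toRat' M) 1 n le_rfl h1 h3).1
  change M.W n = _ at h
  rw [h]
  exact le_rfl

end rat

end Pool.Agent.V8H63.TD
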